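import Mathlib

set_option autoImplicit false

open MeasureTheory

namespace Pool.Agent.H.MP_96e181_an.Blk

/-- The Fourier coefficient `∫ e(kx) dμ(x)` of a measure on the circle. -/
noncomputable def coef (μ : Measure UnitAddCircle) (k : ℤ) : ℂ :=
  ∫ x : UnitAddCircle, (fourier k x : ℂ) ∂μ

/-- The integer `p ^ a * q ^ b` for `v = (a, b)`. -/
def nn (p q : ℕ) (v : ℕ × ℕ) : ℕ := p ^ v.1 * q ^ v.2

/-- Square-root cancellation for the frequency `k`, in strips of width `s`. -/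
def SqrtCancel (p q : ℕ) (μ : Measure UnitAddCircle) (k : ℤ) (C θ : ℝ) : Prop :=
  ∀ (s : ℕ) (F : Finset (ℕ × ℕ)), (∀ v ∈ F, v.1 < s) →
    ∫ x : UnitAddCircle, ‖∑ v ∈ F, ((fourier (k * (nn p q v : ℤ)) x : ℂ) - coef μ k)‖ ^ 2 ∂μ ≤
      C * (s : ℝ) ^ θ * F.card

/-- The union of the closed balls of radius `r` around the points of `Z`. -/
def nbh (Z : Finset UnitAddCircle) (r : ℝ) : Set UnitAddCircle :=
  ⋃ z ∈ Z, Metric.closedBall z r

open Classical in
/-- The number of `v ∈ F` for which `p ^ a * q ^ b • x` is outside the `r`-neighbourhood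
of `Z`. -/
noncomputable def outCount (p q : ℕ) (Z : Finset UnitAddCircle) (r : ℝ)
    (F : Finset (ℕ × ℕ)) (x : UnitAddCircle) : ℕ :=
  (F.filter (fun v => nn p q v • x ∉ nbh Z r)).card

end Pool.Agent.H.MP_96e181_an.Blk
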