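import Mathlib

set_option autoImplicit false

namespace Pool.Agent.H.MP_96e181_an.Blk

/-- Lifting the exponent: for a prime `l` dividing `x - 1`, `x ≥ 2`, the `l`-adic valuation of
`x ^ (2 n) - 1` is at most that of `(x + 1) (x - 1) n`. -/
theorem lte_le {l x n : ℕ} (hl : l.Prime) (hx : 2 ≤ x) (hlx : l ∣ x - 1) (hn : 1 ≤ n) :
    padicValNat l (x ^ (2 * n) - 1) ≤ padicValNat l ((x + 1) * (x - 1) * n) := by
  have : Fact l.Prime := ⟨hl⟩
  have hx1 : x + 1 ≠ 0 := by omega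
  have hx2 : x - 1 ≠ 0 := by omega
  have hn0 : n ≠ 0 := by omega
  have hlnx : ¬ l ∣ x := by
    intro h
    have h1 : l ∣ x - (x - 1) := Nat.dvd_sub h hlx
    have h2 : x - (x - 1) = 1 := by omega
    rw [h2] at h1
    exact hl.one_lt.ne' (Nat.dvd_one.1 h1)
  rw [padicValNat.mul (mul_ne_zero hx1 hx2) hn0, padicValNat.mul hx1 hx2]
  rcases hl.eq_two_or_odd' with h2 | hodd
  · subst h2
    have h := padicValNat.pow_two_sub_pow (x := x) (y := 1) (by omega) hlx hlnx
      (n := 2 * n) (by omega) (by simp)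
    rw [one_pow, padicValNat.mul (by norm_num) hn0, padicValNat.self (by norm_num)] at h
    omega
  · have h := padicValNat.pow_sub_pow (p := l) hodd (x := x) (y := 1) (by omega) hlx hlnx
      (n := 2 * n) (by omega)
    rw [one_pow, padicValNat.mul (by norm_num) hn0] at h
    have h3 : padicValNat l 2 = 0 := by
      apply padicValNat.eq_zero_of_not_dvd
      intro h4
      have h5 := (Nat.prime_dvd_prime_iff_eq hl Nat.prime_two).1 h4
      subst h5
      exact absurd hodd (by decide)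
    omega

/-- LTE: if `D` has only prime factors of `p` and divides `q ^ n - 1`, then `D ≤ C n`. -/
theorem ord_bound {p q : ℕ} (hp : 2 ≤ p) (hq : 2 ≤ q) (hpq : Nat.Coprime p q) :
    ∃ C : ℕ, 1 ≤ C ∧ ∀ w D n : ℕ, D ∣ p ^ w → 1 ≤ n → D ∣ q ^ n - 1 → D ≤ C * n := by
  have he : 1 ≤ Nat.totient p := Nat.totient_pos.2 (by omega)
  set x := q ^ Nat.totient p with hxdef
  have hx : 2 ≤ x := by
    calc 2 ≤ q := hq
      _ = q ^ 1 := (pow_one q).symm
      _ ≤ q ^ Nat.totient p := Nat.pow_le_pow_right (by omega) he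
  have hpx : p ∣ x - 1 := by
    have h1 : q ^ Nat.totient p ≡ 1 [MOD p] := Nat.ModEq.pow_totient hpq.symm
    exact (Nat.modEq_iff_dvd' (by omega)).1 h1.symm
  refine ⟨(x + 1) * (x - 1), ?_, ?_⟩
  · exact Nat.one_le_iff_ne_zero.2 (mul_ne_zero (by omega) (by omega))
  intro w D n hDw hn hDn
  have hpw : p ^ w ≠ 0 := pow_ne_zero _ (by omega)
  have hD0 : D ≠ 0 := fun h => hpw (Nat.eq_zero_of_zero_dvd (h ▸ hDw))
  have hC0 : (x + 1) * (x - 1) * n ≠ 0 :=
    mul_ne_zero (mul_ne_zero (by omega) (by omega)) (by omega)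
  apply Nat.le_of_dvd (Nat.pos_of_ne_zero hC0)
  rw [← Nat.factorization_prime_le_iff_dvd hD0 hC0]
  intro l hl
  by_cases hlp : l ∣ p
  · have h1 : D ∣ x ^ (2 * n) - 1 := by
      refine hDn.trans ?_
      have h2 : x ^ (2 * n) = (q ^ n) ^ (2 * Nat.totient p) := by
        rw [hxdef, ← pow_mul, ← pow_mul]; congr 1; ring
      rw [h2]
      have h3 := Nat.sub_dvd_pow_sub_pow (q ^ n) 1 (2 * Nat.totient p)
      rwa [one_pow] at h3
    have h4 : x ^ (2 * n) - 1 ≠ 0 := by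
      have h5 : 1 < x ^ (2 * n) := Nat.one_lt_pow (by omega) (by omega)
      omega
    have h6 := (Nat.factorization_le_iff_dvd hD0 h4).2 h1 l
    rw [Nat.factorization_def _ hl] at h6 ⊢
    rw [Nat.factorization_def _ hl] at h6 ⊢
    exact h6.trans (lte_le hl hx (hlp.trans hpx) hn)
  · have h1 : D.factorization l = 0 := by
      apply Nat.factorization_eq_zero_of_not_dvd
      intro h
      exact hlp (hl.dvd_of_dvd_pow (h.trans hDw))
    rw [h1]; exact Nat.zero_le _

theorem two_pow_le {p : ℕ} (hp : 2 ≤ p) {w D : ℕ} (hw : 1 ≤ w) (h1 : D ∣ p ^ w)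
    (h2 : ¬ D ∣ p ^ (w - 1)) : 2 ^ w ≤ D := by
  have hp0 : p ≠ 0 := by omega
  have hpw : p ^ w ≠ 0 := pow_ne_zero _ hp0
  have hD0 : D ≠ 0 := fun h => hpw (Nat.eq_zero_of_zero_dvd (h ▸ h1))
  have hpw1 : p ^ (w - 1) ≠ 0 := pow_ne_zero _ hp0
  rw [← Nat.factorization_prime_le_iff_dvd hD0 hpw1] at h2
  push Not at h2
  obtain ⟨l, hl, h3⟩ := h2
  have h4 := (Nat.factorization_le_iff_dvd hD0 hpw).2 h1 l
  rw [Nat.factorization_pow] at h3 h4
  simp only [Finsupp.coe_smul, Pi.smul_apply, smul_eq_mul] at h3 h4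
  have h5 : 1 ≤ p.factorization l := by
    by_contra h
    have h6 : p.factorization l = 0 := by omega
    rw [h6] at h3 h4
    omega
  have h7 : w ≤ D.factorization l := by
    have h8 : (w - 1) * 1 ≤ (w - 1) * p.factorization l := Nat.mul_le_mul_left _ h5
    omega
  calc 2 ^ w ≤ l ^ w := Nat.pow_le_pow_left hl.two_le _
    _ ≤ l ^ D.factorization l := Nat.pow_le_pow_right hl.pos h7
    _ ≤ D := Nat.le_of_dvd (Nat.pos_of_ne_zero hD0) (Nat.ordProj_dvd D l)

end Pool.Agent.H.MP_96e181_an.Blk
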