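import Mathlib
import Pool.Agent.H.MP_96e181_an.blk.Ord

set_option autoImplicit false

namespace Pool.Agent.H.MP_96e181_an.Blk

/-- A real representative of a point of the circle, as close as possible to a given real. -/
theorem exists_rep (x : UnitAddCircle) (t : ℝ) :
    ∃ r : ℝ, (r : UnitAddCircle) = x ∧ |r - t| = dist x (t : UnitAddCircle) := by
  induction x using QuotientAddGroup.induction_on with
  | H z =>
    refine ⟨z - (round (z - t) : ℝ), ?_, ?_⟩
    · have h : (((round (z - t) : ℤ) : ℝ) : UnitAddCircle) = 0 :=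
        (AddCircle.coe_eq_zero_iff (1 : ℝ)).2 ⟨round (z - t), by simp⟩
      rw [AddCircle.coe_sub, h, sub_zero]
    · have h1 : dist ((z : ℝ) : UnitAddCircle) (t : UnitAddCircle) =
          |(z - t) - (round (z - t) : ℝ)| := by
        rw [dist_eq_norm, ← AddCircle.coe_sub, UnitAddCircle.norm_eq]
      have h2 : z - (round (z - t) : ℝ) - t = (z - t) - (round (z - t) : ℝ) := by ring
      rw [h2]
      exact h1.symm

/-- At most `2 ρ D + 1` points killed by `D` are within `ρ` of a given point. -/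
theorem torsion_count (S : Finset UnitAddCircle) {D : ℕ} (hD : 1 ≤ D)
    (h : ∀ x ∈ S, D • x = 0) (y : UnitAddCircle) {ρ : ℝ} (hρ : 0 ≤ ρ)
    (hS : ∀ x ∈ S, dist x y ≤ ρ) : (S.card : ℝ) ≤ 2 * ρ * D + 1 := by
  obtain ⟨t, ht⟩ : ∃ t : ℝ, (t : UnitAddCircle) = y := QuotientAddGroup.mk_surjective y
  choose r hr1 hr2 using fun x : UnitAddCircle => exists_rep x t
  have hD0 : (0 : ℝ) < D := by exact_mod_cast hD
  have hk : ∀ x ∈ S, ((⌊(D : ℝ) * r x⌋ : ℤ) : ℝ) = D * r x := by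
    intro x hx
    have h1 := h x hx
    rw [← hr1 x] at h1
    have h2 : (((D : ℝ) * r x : ℝ) : UnitAddCircle) = 0 := by
      rw [← h1, ← AddCircle.coe_nsmul, nsmul_eq_mul]
    obtain ⟨n, hn⟩ := (AddCircle.coe_eq_zero_iff (1 : ℝ)).1 h2
    rw [← hn]
    simp
  have hcard : S.card ≤ (Finset.Icc ⌈(D : ℝ) * (t - ρ)⌉ ⌊(D : ℝ) * (t + ρ)⌋).card := by
    refine Finset.card_le_card_of_injOn (fun x => ⌊(D : ℝ) * r x⌋) ?_ ?_
    · intro x hx
      have hx' : x ∈ S := by simpa using hx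
      have h1 : |r x - t| ≤ ρ := by rw [hr2 x, ht]; exact hS x hx'
      rw [abs_le] at h1
      have h3 : (D : ℝ) * (t - ρ) ≤ D * r x := by
        apply mul_le_mul_of_nonneg_left _ hD0.le; linarith [h1.1]
      have h4 : (D : ℝ) * r x ≤ D * (t + ρ) := by
        apply mul_le_mul_of_nonneg_left _ hD0.le; linarith [h1.2]
      simp only [Finset.coe_Icc, Set.mem_Icc]
      constructor
      · rw [Int.ceil_le, hk x hx']; exact h3
      · exact Int.floor_le_floor h4
    · intro x hx x' hx' hxx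
      have hx1 : x ∈ S := by simpa using hx
      have hx1' : x' ∈ S := by simpa using hx'
      have h1 : ((⌊(D : ℝ) * r x⌋ : ℤ) : ℝ) = ((⌊(D : ℝ) * r x'⌋ : ℤ) : ℝ) := by
        have : ⌊(D : ℝ) * r x⌋ = ⌊(D : ℝ) * r x'⌋ := hxx
        rw [this]
      rw [hk x hx1, hk x' hx1'] at h1
      have h2 : r x = r x' := mul_left_cancel₀ hD0.ne' h1
      rw [← hr1 x, ← hr1 x', h2]
  have h5 : (S.card : ℝ) ≤ ((⌊(D : ℝ) * (t + ρ)⌋ + 1 - ⌈(D : ℝ) * (t - ρ)⌉).toNat : ℝ) := by
    rw [Int.card_Icc] at hcard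
    exact_mod_cast hcard
  refine h5.trans ?_
  have h6 : (0 : ℝ) ≤ 2 * ρ * D + 1 := by positivity
  rcases le_or_gt 0 (⌊(D : ℝ) * (t + ρ)⌋ + 1 - ⌈(D : ℝ) * (t - ρ)⌉) with h7 | h7
  · have h8 : ((⌊(D : ℝ) * (t + ρ)⌋ + 1 - ⌈(D : ℝ) * (t - ρ)⌉).toNat : ℝ) =
        (⌊(D : ℝ) * (t + ρ)⌋ : ℝ) + 1 - (⌈(D : ℝ) * (t - ρ)⌉ : ℝ) := by
      have h9 : (((⌊(D : ℝ) * (t + ρ)⌋ + 1 - ⌈(D : ℝ) * (t - ρ)⌉).toNat : ℤ) : ℝ) =
          ((⌊(D : ℝ) * (t + ρ)⌋ + 1 - ⌈(D : ℝ) * (t - ρ)⌉ : ℤ) : ℝ) := by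
        rw [Int.toNat_of_nonneg h7]
      push_cast at h9
      exact_mod_cast h9
    rw [h8]
    have h10 := Int.floor_le ((D : ℝ) * (t + ρ))
    have h11 := Int.le_ceil ((D : ℝ) * (t - ρ))
    nlinarith
  · rw [Int.toNat_of_nonpos h7.le]
    simpa using h6

theorem row_count {p q : ℕ} (hp : 2 ≤ p) (hq : 2 ≤ q) (hpq : Nat.Coprime p q) :
    ∃ C : ℝ, 1 ≤ C ∧ ∀ (w : ℕ) (ξ y : UnitAddCircle) (ρ : ℝ) (M : ℕ), 1 ≤ w → 0 ≤ ρ →
      p ^ w • ξ = 0 → p ^ (w - 1) • ξ ≠ 0 →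
      (((Finset.range M).filter (fun b => dist (q ^ b • ξ) y ≤ ρ)).card : ℝ) ≤
        C * (2 * ρ + 1 / 2 ^ w) * M + 2 * ρ * p ^ w + 1 := by
  classical
  obtain ⟨C, hC1, hC⟩ := ord_bound hp hq hpq
  refine ⟨C, by exact_mod_cast hC1, ?_⟩
  intro w ξ y ρ M hw hρ hξ1 hξ2
  set D := addOrderOf ξ with hDdef
  have hDw : D ∣ p ^ w := addOrderOf_dvd_iff_nsmul_eq_zero.2 hξ1
  have hDw1 : ¬ D ∣ p ^ (w - 1) := fun h => hξ2 (addOrderOf_dvd_iff_nsmul_eq_zero.1 h)
  have h2D : 2 ^ w ≤ D := two_pow_le hp hw hDw hDw1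
  have hD1 : 1 ≤ D := le_trans Nat.one_le_two_pow h2D
  have hDp : D ≤ p ^ w := Nat.le_of_dvd (pow_pos (by omega) _) hDw
  have hcop : ∀ b : ℕ, Nat.Coprime D (q ^ b) := fun b =>
    Nat.Coprime.coprime_dvd_left hDw (Nat.Coprime.pow w b hpq)
  set T := (D - 1) / C + 1 with hT
  have hT1 : C * (T - 1) < D := by
    have h1 : C * ((D - 1) / C) ≤ D - 1 := Nat.mul_div_le (D - 1) C
    have h2 : T - 1 = (D - 1) / C := by rw [hT, Nat.add_sub_cancel]
    rw [h2]; omega
  have hT2 : D ≤ C * T := by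
    have h1 : D - 1 < C * T := by
      rw [hT]
      exact Nat.lt_mul_div_succ (D - 1) (by omega)
    omega
  have hT0 : 0 < T := by rw [hT]; exact Nat.succ_pos _
  set S := (Finset.range M).filter (fun b => dist (q ^ b • ξ) y ≤ ρ) with hS
  have hmaps : Set.MapsTo (fun b => b / T) (S : Set ℕ) (Finset.range (M / T + 1) : Finset ℕ) := by
    intro b hb
    have hb' : b ∈ S := by simpa using hb
    rw [hS, Finset.mem_filter, Finset.mem_range] at hb'
    simp only [Finset.coe_range, Set.mem_Iio]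
    exact Nat.lt_succ_of_le (Nat.div_le_div_right hb'.1.le)
  have hfib : ∀ j ∈ Finset.range (M / T + 1),
      ((S.filter (fun b => b / T = j)).card : ℝ) ≤ 2 * ρ * D + 1 := by
    intro j _
    set F := S.filter (fun b => b / T = j) with hF
    have hinj : Set.InjOn (fun b : ℕ => q ^ b • ξ) (F : Set ℕ) := by
      have key : ∀ b ∈ F, ∀ b' ∈ F, b < b' → q ^ b • ξ ≠ q ^ b' • ξ := by
        intro b hb b' hb' hlt heq
        rw [hF, Finset.mem_filter] at hb hb'
        have h1 : q ^ b ≡ q ^ b' [MOD D] := nsmul_eq_nsmul_iff_modEq.1 heq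
        have h2 : D ∣ q ^ b' - q ^ b :=
          (Nat.modEq_iff_dvd' (Nat.pow_le_pow_right (by omega) hlt.le)).1 h1
        have h3 : q ^ b' - q ^ b = q ^ b * (q ^ (b' - b) - 1) := by
          rw [Nat.mul_sub, mul_one, ← pow_add]
          congr 2; omega
        rw [h3] at h2
        have h4 : D ∣ q ^ (b' - b) - 1 := (hcop b).dvd_of_dvd_mul_left h2
        have h5 : D ≤ C * (b' - b) := hC w D (b' - b) hDw (by omega) h4
        have h6 : b' - b ≤ T - 1 := by
          have h7 : b' < T * (j + 1) := by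
            rw [← hb'.2]; exact Nat.lt_mul_div_succ b' hT0
          have h8 : T * j ≤ b := by
            rw [← hb.2]; exact Nat.mul_div_le b T
          have h9 : T * (j + 1) = T * j + T := by ring
          omega
        have h7 : C * (b' - b) ≤ C * (T - 1) := Nat.mul_le_mul_left _ h6
        omega
      intro b hb b' hb' heq
      have hb1 : b ∈ F := by simpa using hb
      have hb1' : b' ∈ F := by simpa using hb'
      rcases lt_trichotomy b b' with h | h | h
      · exact absurd heq (key b hb1 b' hb1' h)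
      · exact h
      · exact absurd heq.symm (key b' hb1' b hb1 h)
    rw [← Finset.card_image_of_injOn hinj]
    refine torsion_count _ hD1 ?_ y hρ ?_
    · intro x hx
      obtain ⟨b, _, rfl⟩ := Finset.mem_image.1 hx
      change D • (q ^ b • ξ) = 0
      rw [smul_comm, addOrderOf_nsmul_eq_zero, smul_zero]
    · intro x hx
      obtain ⟨b, hb, rfl⟩ := Finset.mem_image.1 hx
      rw [hF, Finset.mem_filter, hS, Finset.mem_filter] at hb
      exact hb.1.2
  have hcount : (S.card : ℝ) ≤ ((M / T : ℕ) + 1) * (2 * ρ * D + 1) := by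
    rw [Finset.card_eq_sum_card_fiberwise hmaps]
    push_cast
    refine (Finset.sum_le_sum hfib).trans ?_
    rw [Finset.sum_const, Finset.card_range, nsmul_eq_mul]
    push_cast
    exact le_rfl
  have hDr : (0 : ℝ) < D := by exact_mod_cast hD1
  have hTr : (0 : ℝ) < T := by exact_mod_cast hT0
  have hMT : ((M / T : ℕ) : ℝ) ≤ M * C / D := by
    rw [le_div_iff₀ hDr]
    have h1 : M / T * D ≤ M * C := by
      calc M / T * D ≤ M / T * (C * T) := Nat.mul_le_mul_left _ hT2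
        _ = (M / T * T) * C := by ring
        _ ≤ M * C := Nat.mul_le_mul_right _ (Nat.div_mul_le_self M T)
    exact_mod_cast h1
  have h2w : (0 : ℝ) < 2 ^ w := by positivity
  have hinv : (1 : ℝ) / D ≤ 1 / 2 ^ w :=
    one_div_le_one_div_of_le h2w (by exact_mod_cast h2D)
  have hDpr : (D : ℝ) ≤ (p : ℝ) ^ w := by exact_mod_cast hDp
  have hM0 : (0 : ℝ) ≤ M := Nat.cast_nonneg M
  have hC0 : (0 : ℝ) ≤ C := Nat.cast_nonneg C
  calc (S.card : ℝ) ≤ ((M / T : ℕ) + 1) * (2 * ρ * D + 1) := hcount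
    _ ≤ (M * C / D + 1) * (2 * ρ * D + 1) := by
        apply mul_le_mul_of_nonneg_right _ (by positivity)
        linarith
    _ = C * (2 * ρ) * M + (C * M) * (1 / D) + 2 * ρ * D + 1 := by
        field_simp
        ring
    _ ≤ C * (2 * ρ) * M + (C * M) * (1 / 2 ^ w) + 2 * ρ * p ^ w + 1 := by
        have h1 : (C * M : ℝ) * (1 / D) ≤ (C * M) * (1 / 2 ^ w) :=
          mul_le_mul_of_nonneg_left hinv (by positivity)
        have h2 : 2 * ρ * (D : ℝ) ≤ 2 * ρ * p ^ w :=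
          mul_le_mul_of_nonneg_left hDpr (by positivity)
        linarith
    _ = C * (2 * ρ + 1 / 2 ^ w) * M + 2 * ρ * p ^ w + 1 := by ring

end Pool.Agent.H.MP_96e181_an.Blk
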