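import Mathlib
import Pool.Agent.H.MP_96e181_an.blk.Defs
import Pool.Agent.H.MP_96e181_an.blk.Equi

set_option autoImplicit false

open MeasureTheory

namespace Pool.Agent.H.MP_96e181_an.Blk

/-- A real lift of minimal absolute value. -/
theorem exists_lift (x : UnitAddCircle) : ∃ r : ℝ, (r : UnitAddCircle) = x ∧ |r| = ‖x‖ := by
  obtain ⟨y, rfl⟩ := QuotientAddGroup.mk_surjective x
  refine ⟨y - round y, ?_, ?_⟩
  · have : ((y - round y : ℝ) : UnitAddCircle) = (y : UnitAddCircle) := by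
      rw [AddCircle.coe_sub, sub_eq_self, AddCircle.coe_eq_zero_iff]
      exact ⟨round y, by simp⟩
    exact this
  · exact (UnitAddCircle.norm_eq (x := y)).symm

theorem norm_coe_le (r : ℝ) : ‖(r : UnitAddCircle)‖ ≤ |r| := by
  rw [UnitAddCircle.norm_eq]
  simpa using round_le r 0

theorem nsmul_coe' (n : ℕ) (r : ℝ) :
    n • (r : UnitAddCircle) = ((n * r : ℝ) : UnitAddCircle) := by
  rw [← AddCircle.coe_nsmul, nsmul_eq_mul]

/-- The block step. -/
theorem block_step {p q : ℕ} (hp : 2 ≤ p) (hq : 2 ≤ q) (hpq : Nat.Coprime p q) :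
    ∃ C : ℝ, 1 ≤ C ∧ ∀ (Z : Finset UnitAddCircle) (r : ℝ) (i₀ s M K : ℕ),
      0 < r → 80 * C * (Z.card : ℝ) ^ 2 * r ≤ 1 → 8 * C * (Z.card : ℝ) ^ 2 ≤ 2 ^ i₀ →
      8 * i₀ ≤ s → 1 ≤ s → 1 ≤ M →
      8 * (Z.card : ℝ) ^ 2 * (10 * r * (p : ℝ) ^ (2 * s) + 1) ≤ M →
      (q : ℝ) ^ M ≤ r * (p : ℝ) ^ K →
      ∀ X Y : UnitAddCircle,
        8 * (outCount p q Z (2 * r) (Finset.range s ×ˢ Finset.range M) X : ℝ) ≤ s * M →
        8 * (outCount p q Z (2 * r) (Finset.range s ×ˢ Finset.range M) Y : ℝ) ≤ s * M →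
        ‖p ^ (2 * s) • (X - Y)‖ ≤ 1 / (p : ℝ) ^ K →
        ‖p ^ s • (X - Y)‖ ≤ 1 / (p : ℝ) ^ (K + s) := by
  classical
  obtain ⟨C, hC1, hC⟩ := row_count hp hq hpq
  refine ⟨C, hC1, ?_⟩
  intro Z r i₀ s M K hr hN1 hN2 hi hs hM1 hM hqM X Y hX hY hXY
  by_contra hcon
  push Not at hcon
  have hp0 : (0:ℝ) < p := by positivity
  have hp1 : (1:ℝ) ≤ p := by exact_mod_cast (by omega : 1 ≤ p)
  have hq1 : (1:ℝ) ≤ q := by exact_mod_cast (by omega : 1 ≤ q)
  set ψ : UnitAddCircle := X - Y with hψ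
  obtain ⟨e, he1, he2⟩ := exists_lift (p ^ (2 * s) • ψ)
  have heK : |e| ≤ 1 / (p : ℝ) ^ K := he2.trans_le hXY
  set τ : UnitAddCircle := ((e / (p : ℝ) ^ (2 * s) : ℝ) : UnitAddCircle) with hτ
  set ξ : UnitAddCircle := ψ - τ with hξ
  have hψe : ψ = ξ + τ := by rw [hξ]; abel
  have hξ0 : p ^ (2 * s) • ξ = 0 := by
    rw [hξ, nsmul_sub, ← he1, hτ, nsmul_coe']
    have : ((p ^ (2 * s) : ℕ) : ℝ) * (e / (p : ℝ) ^ (2 * s)) = e := by
      push_cast
      field_simp
    rw [this, sub_self]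
  have hξs : p ^ s • ξ ≠ 0 := by
    intro h0
    have h1 : p ^ s • ψ = ((((p ^ s : ℕ) : ℝ) * (e / (p : ℝ) ^ (2 * s)) : ℝ) : UnitAddCircle) := by
      rw [hψe, nsmul_add, h0, zero_add, hτ, nsmul_coe']
    have h2 : ‖p ^ s • ψ‖ ≤ 1 / (p : ℝ) ^ (K + s) := by
      rw [h1]
      refine (norm_coe_le _).trans ?_
      have h3 : ((p ^ s : ℕ) : ℝ) * (e / (p : ℝ) ^ (2 * s)) = e / (p : ℝ) ^ s := by
        push_cast
        rw [two_mul, pow_add]
        field_simp
      rw [h3, abs_div, abs_of_pos (by positivity : (0:ℝ) < (p : ℝ) ^ s), pow_add,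
        ← div_div]
      gcongr
    exact absurd h2 (not_le.2 hcon)
  -- the exact exponent
  have hex : ∃ w, p ^ w • ξ = 0 := ⟨2 * s, hξ0⟩
  set W := Nat.find hex with hW
  have hW0 : p ^ W • ξ = 0 := Nat.find_spec hex
  have hWmin : ∀ w, w < W → p ^ w • ξ ≠ 0 := fun w hw => Nat.find_min hex hw
  have hW2 : W ≤ 2 * s := Nat.find_min' hex hξ0
  have hWs : s < W := by
    by_contra hle
    push Not at hle
    apply hξs
    obtain ⟨c, hc⟩ := Nat.exists_eq_add_of_le hle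
    rw [hc, pow_add, mul_comm, mul_smul, hW0, smul_zero]
  set N : ℝ := (Z.card : ℝ) with hN
  have hN0 : 0 ≤ N := Nat.cast_nonneg _
  have hMr : (1:ℝ) ≤ M := by exact_mod_cast hM1
  have hsr : (1:ℝ) ≤ s := by exact_mod_cast hs
  -- the bound on a row
  set Bd : ℝ := C * (10 * r + 1 / 2 ^ i₀) * M + 10 * r * (p : ℝ) ^ (2 * s) + 1 with hBd
  have hrow : ∀ a < s - i₀, ∀ y : UnitAddCircle,
      (((Finset.range M).filter (fun b => dist (q ^ b • (p ^ a • ξ)) y ≤ 5 * r)).card : ℝ) ≤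
        Bd := by
    intro a ha y
    have hw1 : 1 ≤ W - a := by omega
    have e1 : p ^ (W - a) • (p ^ a • ξ) = 0 := by
      rw [← mul_smul, ← pow_add, Nat.sub_add_cancel (by omega), hW0]
    have e2 : p ^ (W - a - 1) • (p ^ a • ξ) ≠ 0 := by
      rw [← mul_smul, ← pow_add]
      exact hWmin _ (by omega)
    have h1 := hC (W - a) (p ^ a • ξ) y (5 * r) M hw1 (by positivity) e1 e2
    refine h1.trans ?_
    have h2 : (1:ℝ) / 2 ^ (W - a) ≤ 1 / 2 ^ i₀ := by
      apply one_div_le_one_div_of_le (by positivity)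
      exact pow_le_pow_right₀ (by norm_num) (by omega)
    have h3 : (p : ℝ) ^ (W - a) ≤ (p : ℝ) ^ (2 * s) := pow_le_pow_right₀ hp1 (by omega)
    have h4 : C * (2 * (5 * r) + 1 / 2 ^ (W - a)) * M ≤ C * (10 * r + 1 / 2 ^ i₀) * M := by
      have : 2 * (5 * r) + 1 / 2 ^ (W - a) ≤ 10 * r + 1 / 2 ^ i₀ := by linarith
      have hC0 : 0 ≤ C := by linarith
      gcongr
    have h5 : 2 * (5 * r) * (p : ℝ) ^ (W - a) ≤ 10 * r * (p : ℝ) ^ (2 * s) := by
      rw [show 2 * (5 * r) = 10 * r by ring]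
      gcongr
    rw [hBd]
    linarith
  -- the points where both orbits are near `Z`
  set F := Finset.range s ×ˢ Finset.range M with hF
  set G := F.filter (fun v => nn p q v • X ∈ nbh Z (2 * r) ∧ nn p q v • Y ∈ nbh Z (2 * r))
    with hG
  have hFcard : F.card = s * M := by
    rw [hF, Finset.card_product, Finset.card_range, Finset.card_range]
  have hcount : F.card ≤ G.card + outCount p q Z (2 * r) F X + outCount p q Z (2 * r) F Y := by
    have hsub : F ⊆ G ∪ F.filter (fun v => nn p q v • X ∉ nbh Z (2 * r)) ∪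
        F.filter (fun v => nn p q v • Y ∉ nbh Z (2 * r)) := by
      intro v hv
      simp only [hG, Finset.mem_union, Finset.mem_filter]
      tauto
    refine (Finset.card_le_card hsub).trans ((Finset.card_union_le _ _).trans ?_)
    refine Nat.add_le_add ((Finset.card_union_le _ _).trans ?_) ?_
    · unfold outCount
      exact Nat.add_le_add le_rfl (le_of_eq (by congr))
    · unfold outCount
      exact le_of_eq (by congr)
  have hGlow : 3 / 4 * ((s : ℝ) * M) ≤ G.card := by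
    have h1 : ((F.card : ℕ) : ℝ) ≤ G.card + outCount p q Z (2 * r) F X +
        outCount p q Z (2 * r) F Y := by exact_mod_cast hcount
    rw [hFcard] at h1
    push_cast at h1
    linarith
  -- covering of G
  have hGsub : G ⊆ (Finset.Ico (s - i₀) s ×ˢ Finset.range M) ∪
      (Z ×ˢ Z).biUnion (fun zz => (Finset.range (s - i₀)).biUnion (fun a =>
        ((Finset.range M).filter (fun b => dist (q ^ b • (p ^ a • ξ)) (zz.1 - zz.2) ≤ 5 * r)).image
          (fun b => (a, b)))) := by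
    intro v hv
    rw [hG, Finset.mem_filter, hF, Finset.mem_product, Finset.mem_range, Finset.mem_range] at hv
    obtain ⟨⟨ha, hb⟩, hvX, hvY⟩ := hv
    by_cases hcase : s - i₀ ≤ v.1
    · apply Finset.mem_union_left
      rw [Finset.mem_product, Finset.mem_Ico, Finset.mem_range]
      exact ⟨⟨hcase, ha⟩, hb⟩
    · push Not at hcase
      apply Finset.mem_union_right
      simp only [nbh, Set.mem_iUnion, Metric.mem_closedBall, exists_prop] at hvX hvY
      obtain ⟨z, hz, hzX⟩ := hvX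
      obtain ⟨z', hz', hzY⟩ := hvY
      rw [Finset.mem_biUnion]
      refine ⟨(z, z'), Finset.mem_product.2 ⟨hz, hz'⟩, ?_⟩
      rw [Finset.mem_biUnion]
      refine ⟨v.1, Finset.mem_range.2 hcase, ?_⟩
      rw [Finset.mem_image]
      refine ⟨v.2, ?_, rfl⟩
      rw [Finset.mem_filter]
      refine ⟨Finset.mem_range.2 hb, ?_⟩
      -- the distance
      have e1 : q ^ v.2 • (p ^ v.1 • ξ) =
          nn p q v • X - nn p q v • Y - q ^ v.2 • (p ^ v.1 • τ) := by
        have : ξ = X - Y - τ := by rw [hξ, hψ]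
        rw [this, nn]
        simp only [smul_sub, ← mul_smul, mul_comm (q ^ v.2) (p ^ v.1)]
      have e2 : ‖q ^ v.2 • (p ^ v.1 • τ)‖ ≤ r := by
        rw [hτ, nsmul_coe', nsmul_coe']
        refine (norm_coe_le _).trans ?_
        push_cast
        rw [abs_mul, abs_mul, abs_div, abs_of_nonneg (by positivity : (0:ℝ) ≤ (q : ℝ) ^ v.2),
          abs_of_nonneg (by positivity : (0:ℝ) ≤ (p : ℝ) ^ v.1),
          abs_of_nonneg (by positivity : (0:ℝ) ≤ (p : ℝ) ^ (2 * s))]
        have h1 : (q : ℝ) ^ v.2 ≤ r * (p : ℝ) ^ K :=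
          (pow_le_pow_right₀ hq1 (by omega)).trans hqM
        have h2 : (p : ℝ) ^ v.1 * (|e| / (p : ℝ) ^ (2 * s)) ≤ 1 / (p : ℝ) ^ K := by
          rw [← mul_div_assoc, div_le_iff₀ (by positivity)]
          have h3 : (p : ℝ) ^ v.1 ≤ (p : ℝ) ^ (2 * s) := pow_le_pow_right₀ hp1 (by omega)
          calc (p : ℝ) ^ v.1 * |e| ≤ (p : ℝ) ^ (2 * s) * (1 / (p : ℝ) ^ K) := by gcongr
            _ = 1 / (p : ℝ) ^ K * (p : ℝ) ^ (2 * s) := by ring
        calc (q : ℝ) ^ v.2 * ((p : ℝ) ^ v.1 * (|e| / (p : ℝ) ^ (2 * s)))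
            ≤ (r * (p : ℝ) ^ K) * (1 / (p : ℝ) ^ K) := by gcongr
          _ = r := by field_simp
      rw [dist_eq_norm] at hzX hzY ⊢
      have e3 : q ^ v.2 • (p ^ v.1 • ξ) - (z - z') =
          (nn p q v • X - z) - (nn p q v • Y - z') - q ^ v.2 • (p ^ v.1 • τ) := by
        rw [e1]; abel
      change ‖q ^ v.2 • (p ^ v.1 • ξ) - (z - z')‖ ≤ 5 * r
      rw [e3]
      refine (norm_sub_le _ _).trans ?_
      have := norm_sub_le (nn p q v • X - z) (nn p q v • Y - z')
      linarith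
  have hGup : (G.card : ℝ) ≤ i₀ * M + N ^ 2 * (s * Bd) := by
    have h1 := Finset.card_le_card hGsub
    have h2 := h1.trans (Finset.card_union_le _ _)
    have h3 : ((Finset.Ico (s - i₀) s ×ˢ Finset.range M).card : ℝ) ≤ i₀ * M := by
      rw [Finset.card_product, Nat.card_Ico, Finset.card_range]
      push_cast
      have : ((s - (s - i₀) : ℕ) : ℝ) ≤ i₀ := by exact_mod_cast (by omega : s - (s - i₀) ≤ i₀)
      gcongr
    have hBd0 : 0 ≤ Bd := by
      rw [hBd]
      have hC0 : 0 ≤ C := by linarith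
      positivity
    have h4 : (((Z ×ˢ Z).biUnion (fun zz => (Finset.range (s - i₀)).biUnion (fun a =>
        ((Finset.range M).filter (fun b => dist (q ^ b • (p ^ a • ξ)) (zz.1 - zz.2) ≤ 5 * r)).image
          (fun b => (a, b))))).card : ℝ) ≤ N ^ 2 * (s * Bd) := by
      refine (Nat.cast_le.2 Finset.card_biUnion_le).trans ?_
      push_cast
      have h5 : ∀ zz ∈ Z ×ˢ Z, (((Finset.range (s - i₀)).biUnion (fun a =>
        ((Finset.range M).filter (fun b => dist (q ^ b • (p ^ a • ξ)) (zz.1 - zz.2) ≤ 5 * r)).image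
          (fun b => (a, b)))).card : ℝ) ≤ s * Bd := by
        intro zz _
        refine (Nat.cast_le.2 Finset.card_biUnion_le).trans ?_
        push_cast
        have h6 : ∀ a ∈ Finset.range (s - i₀), ((((Finset.range M).filter
            (fun b => dist (q ^ b • (p ^ a • ξ)) (zz.1 - zz.2) ≤ 5 * r)).image
            (fun b => (a, b))).card : ℝ) ≤ Bd := by
          intro a ha
          exact (Nat.cast_le.2 Finset.card_image_le).trans (hrow a (Finset.mem_range.1 ha) _)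
        refine (Finset.sum_le_card_nsmul _ _ _ h6).trans ?_
        rw [Finset.card_range, nsmul_eq_mul]
        have : ((s - i₀ : ℕ) : ℝ) ≤ s := by exact_mod_cast (by omega : s - i₀ ≤ s)
        gcongr
      refine (Finset.sum_le_card_nsmul _ _ _ h5).trans ?_
      rw [Finset.card_product, nsmul_eq_mul]
      push_cast
      rw [hN]
      exact le_of_eq (by ring)
    have h7 : (G.card : ℝ) ≤ ((Finset.Ico (s - i₀) s ×ˢ Finset.range M).card : ℝ) +
      (((Z ×ˢ Z).biUnion (fun zz => (Finset.range (s - i₀)).biUnion (fun a =>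
        ((Finset.range M).filter (fun b => dist (q ^ b • (p ^ a • ξ)) (zz.1 - zz.2) ≤ 5 * r)).image
          (fun b => (a, b))))).card : ℝ) := by exact_mod_cast h2
    linarith
  -- arithmetic
  have hsM : 0 < (s : ℝ) * M := by positivity
  have a1 : (i₀ : ℝ) * M ≤ 1 / 8 * (s * M) := by
    have : 8 * (i₀ : ℝ) ≤ s := by exact_mod_cast hi
    nlinarith
  have a2 : N ^ 2 * (C * (10 * r) * M) ≤ 1 / 8 * M := by
    have : N ^ 2 * (C * (10 * r) * M) = (80 * C * N ^ 2 * r) * M / 8 := by ring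
    rw [this]
    nlinarith
  have a3 : N ^ 2 * (C * (1 / 2 ^ i₀) * M) ≤ 1 / 8 * M := by
    have h2 : (0:ℝ) < 2 ^ i₀ := by positivity
    have : N ^ 2 * (C * (1 / 2 ^ i₀) * M) = (8 * C * N ^ 2) / 2 ^ i₀ * (M / 8) := by
      field_simp
    rw [this]
    have h3 : (8 * C * N ^ 2) / 2 ^ i₀ ≤ 1 := (div_le_one h2).2 hN2
    nlinarith
  have a4 : N ^ 2 * (10 * r * (p : ℝ) ^ (2 * s) + 1) ≤ 1 / 8 * M := by linarith
  have a5 : N ^ 2 * Bd ≤ 3 / 8 * M := by
    have : N ^ 2 * Bd = N ^ 2 * (C * (10 * r) * M) + N ^ 2 * (C * (1 / 2 ^ i₀) * M) +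
        N ^ 2 * (10 * r * (p : ℝ) ^ (2 * s) + 1) := by
      rw [hBd]; ring
    linarith
  have a6 : N ^ 2 * (s * Bd) ≤ 3 / 8 * (s * M) := by
    have : N ^ 2 * (s * Bd) = s * (N ^ 2 * Bd) := by ring
    rw [this]
    nlinarith
  linarith

end Pool.Agent.H.MP_96e181_an.Blk
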