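import Mathlib
import Pool.Agent.H.MP_96e181_an.blk.Defs

set_option autoImplicit false

open MeasureTheory

namespace Pool.Agent.H.MP_96e181_an.Blk

/-! The chain of blocks: a measure without atoms which is invariant under multiplication by `p`
cannot satisfy the block step on sets of summable defects. -/

private lemma mp_pow {p : ℕ} {μ : Measure UnitAddCircle}
    (hμp : MeasurePreserving (fun x : UnitAddCircle => p • x) μ μ) (n : ℕ) :
    MeasurePreserving (fun x : UnitAddCircle => p ^ n • x) μ μ := by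
  induction n with
  | zero =>
    have h2 : (fun x : UnitAddCircle => p ^ 0 • x) = id := by
      funext x; simp
    rw [h2]; exact MeasurePreserving.id μ
  | succ n ih =>
    have h := hμp.comp ih
    have h2 : ((fun x : UnitAddCircle => p • x) ∘ fun x => p ^ n • x) =
        fun x : UnitAddCircle => p ^ (n + 1) • x := by
      funext x
      simp only [Function.comp_apply]
      rw [smul_smul, pow_succ, mul_comm]
    rwa [h2] at h

private lemma measureReal_pre {p : ℕ} {μ : Measure UnitAddCircle}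
    (hμp : MeasurePreserving (fun x : UnitAddCircle => p • x) μ μ) (n : ℕ)
    {B : Set UnitAddCircle} (hB : MeasurableSet B) :
    μ.real ((fun x : UnitAddCircle => p ^ n • x) ⁻¹' B) = μ.real B := by
  unfold Measure.real
  rw [(mp_pow hμp n).measure_preimage hB.nullMeasurableSet]

/-- balls of small radius have small measure, uniformly -/
private lemma unif_small {μ : Measure UnitAddCircle} [IsProbabilityMeasure μ]
    [NullSingletonClass μ] {e : ℝ} (he : 0 < e) :
    ∃ δ : ℝ, 0 < δ ∧ ∀ x, μ.real (Metric.ball x δ) ≤ e := by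
  have h1 : ∀ x : UnitAddCircle, ∃ U : Set UnitAddCircle, {x} ⊆ U ∧ IsOpen U ∧
      μ U < ENNReal.ofReal e := by
    intro x
    obtain ⟨U, hU, hUo, hUm⟩ := Set.exists_isOpen_lt_of_lt (μ := μ) {x} (ENNReal.ofReal e) (by
      rw [measure_singleton]; exact ENNReal.ofReal_pos.mpr he)
    exact ⟨U, hU, hUo, hUm⟩
  choose U hU hUo hUm using h1
  obtain ⟨δ, hδ, h⟩ := lebesgue_number_lemma_of_metric
    (isCompact_univ : IsCompact (Set.univ : Set UnitAddCircle)) hUo
    (fun x _ => Set.mem_iUnion.mpr ⟨x, hU x rfl⟩)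
  refine ⟨δ, hδ, fun x => ?_⟩
  obtain ⟨i, hi⟩ := h x (Set.mem_univ x)
  have h2 := (measure_mono hi).trans (hUm i).le
  exact ENNReal.toReal_le_of_le_ofReal he.le h2

/-- The chain of blocks. -/
theorem chain_atoms {p : ℕ} (hp : 2 ≤ p) {μ : Measure UnitAddCircle} [IsProbabilityMeasure μ]
    [NullSingletonClass μ] (hμp : MeasurePreserving (fun x : UnitAddCircle => p • x) μ μ)
    (t₁ : ℕ) (s : ℕ → ℕ) (hs1 : ∀ t, t₁ ≤ t → 1 ≤ s t) (hs2 : ∀ t, s t ≤ t)
    (B : ℕ → Set UnitAddCircle) (hB : ∀ t, MeasurableSet (B t))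
    (hsum : ∀ T, ∑ t ∈ Finset.Ico t₁ T, ((2:ℝ) ^ t / s t + 1) * μ.real (B t) ≤ 1 / 2)
    (hstep : ∀ t, t₁ ≤ t → ∀ K, 2 ^ t ≤ K → ∀ X, X ∉ B t → ∀ Y, Y ∉ B t →
      ‖p ^ (2 * s t) • (X - Y)‖ ≤ 1 / (p : ℝ) ^ K →
      ‖p ^ (s t) • (X - Y)‖ ≤ 1 / (p : ℝ) ^ (K + s t)) : False := by
  classical
  have hp0 : (0 : ℝ) < p := by exact_mod_cast (by omega : 0 < p)
  have hp1 : (1 : ℝ) < p := by exact_mod_cast (by omega : 1 < p)
  -- a finite cover by small balls
  have hρ : (0 : ℝ) < 1 / (p : ℝ) ^ (2 ^ t₁) / 2 := by positivity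
  obtain ⟨c, -, hcfin, hcov⟩ := _root_.finite_cover_balls_of_compact
    (isCompact_univ : IsCompact (Set.univ : Set UnitAddCircle)) hρ
  set cs := hcfin.toFinset with hcs
  -- small balls
  obtain ⟨δ, hδ, hsm⟩ := unif_small (μ := μ)
    (show (0 : ℝ) < 1 / (4 * ((cs.card : ℝ) + 1)) by positivity)
  -- the scale
  obtain ⟨T, hT1, hTδ⟩ : ∃ T, t₁ ≤ T ∧ 1 / (p : ℝ) ^ (2 ^ T) < δ := by
    obtain ⟨n, hn⟩ := exists_pow_lt_of_lt_one hδ (inv_lt_one_of_one_lt₀ hp1)
    refine ⟨max n t₁, le_max_right _ _, ?_⟩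
    rw [one_div, ← inv_pow]
    refine lt_of_le_of_lt ?_ hn
    apply pow_le_pow_of_le_one (by positivity) (inv_le_one_of_one_le₀ hp1.le)
    exact (le_max_left n t₁).trans (Nat.lt_two_pow_self).le
  set N := 2 ^ T + 2 * T with hN
  set J : ℕ → ℕ := fun t => 2 ^ t / s t + 1 with hJ
  set e : ℕ → ℕ → ℕ := fun t j => N - (2 ^ t + j * s t) - 2 * s t with he
  set Gc : Set UnitAddCircle := ⋃ t ∈ Finset.Ico t₁ T, ⋃ j ∈ Finset.range (J t),
    (fun x : UnitAddCircle => p ^ e t j • x) ⁻¹' B t with hGc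
  have hGcm : μ.real Gc ≤ 1 / 2 := by
    calc μ.real Gc ≤ ∑ t ∈ Finset.Ico t₁ T, μ.real (⋃ j ∈ Finset.range (J t),
          (fun x : UnitAddCircle => p ^ e t j • x) ⁻¹' B t) := measureReal_biUnion_finset_le _ _
      _ ≤ ∑ t ∈ Finset.Ico t₁ T, ∑ j ∈ Finset.range (J t),
          μ.real ((fun x : UnitAddCircle => p ^ e t j • x) ⁻¹' B t) :=
          Finset.sum_le_sum fun t _ => measureReal_biUnion_finset_le _ _
      _ = ∑ t ∈ Finset.Ico t₁ T, (J t : ℝ) * μ.real (B t) := by
          refine Finset.sum_congr rfl fun t _ => ?_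
          rw [Finset.sum_congr rfl fun j _ => measureReal_pre hμp (e t j) (hB t),
            Finset.sum_const, Finset.card_range, nsmul_eq_mul]
      _ ≤ ∑ t ∈ Finset.Ico t₁ T, ((2:ℝ) ^ t / s t + 1) * μ.real (B t) := by
          refine Finset.sum_le_sum fun t _ => mul_le_mul_of_nonneg_right ?_ measureReal_nonneg
          rw [hJ]
          push_cast
          have := @Nat.cast_div_le ℝ _ _ _ (2 ^ t) (s t)
          push_cast at this
          linarith
      _ ≤ 1 / 2 := hsum T
  -- the good points: no branching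
  have hgood : ∀ u, u ∉ Gc → ∀ v, v ∉ Gc →
      ‖p ^ (N - 2 ^ t₁) • (u - v)‖ ≤ 1 / (p : ℝ) ^ (2 ^ t₁) →
      ‖p ^ (N - 2 ^ T) • (u - v)‖ ≤ 1 / (p : ℝ) ^ (2 ^ T) := by
    intro u hu v hv h0
    have hmem : ∀ x, x ∉ Gc → ∀ t, t₁ ≤ t → t < T → ∀ j, j < J t → p ^ e t j • x ∉ B t := by
      intro x hx t ht1 ht2 j hj hcon
      apply hx
      rw [hGc]
      simp only [Set.mem_iUnion]
      exact ⟨t, Finset.mem_Ico.mpr ⟨ht1, ht2⟩, j, Finset.mem_range.mpr hj, hcon⟩
    have hdown : ∀ K K', K' ≤ K → K ≤ N → ‖p ^ (N - K) • (u - v)‖ ≤ 1 / (p : ℝ) ^ K →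
        ‖p ^ (N - K') • (u - v)‖ ≤ 1 / (p : ℝ) ^ K' := by
      intro K K' hK' hK h
      have h1 : p ^ (N - K') = p ^ (K - K') * p ^ (N - K) := by
        rw [← pow_add]; congr 1; omega
      rw [h1, ← smul_smul]
      refine (norm_nsmul_le).trans ?_
      have h2 : (p : ℝ) ^ K = (p : ℝ) ^ (K - K') * (p : ℝ) ^ K' := by
        rw [← pow_add]; congr 1; omega
      rw [h2] at h
      have h3 : (0 : ℝ) < (p : ℝ) ^ (K - K') := by positivity
      push_cast
      calc (p : ℝ) ^ (K - K') * ‖p ^ (N - K) • (u - v)‖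
          ≤ (p : ℝ) ^ (K - K') * (1 / ((p : ℝ) ^ (K - K') * (p : ℝ) ^ K')) := by gcongr
        _ = _ := by field_simp
    have hind : ∀ t, t₁ ≤ t → t ≤ T →
        ‖p ^ (N - 2 ^ t) • (u - v)‖ ≤ 1 / (p : ℝ) ^ (2 ^ t) := by
      intro t ht
      induction t, ht using Nat.le_induction with
      | base => intro _; exact h0
      | succ t ht ih =>
        intro htT
        have hst := hs1 t ht
        have hst2 := hs2 t
        have h2t : 2 ^ (t + 1) ≤ 2 ^ T := Nat.pow_le_pow_right (by norm_num) htT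
        have h2t' : 2 ^ (t + 1) = 2 ^ t + 2 ^ t := by rw [pow_succ]; omega
        have hJ1 : 2 ^ t / s t * s t ≤ 2 ^ t := Nat.div_mul_le_self _ _
        have hJ2 : 2 ^ t < (2 ^ t / s t + 1) * s t := by
          have := Nat.lt_div_mul_add (a := 2 ^ t) (b := s t) (by omega)
          rw [add_mul, one_mul]; exact this
        have hj : ∀ j, j ≤ J t → ‖p ^ (N - (2 ^ t + j * s t)) • (u - v)‖ ≤
            1 / (p : ℝ) ^ (2 ^ t + j * s t) := by
          intro j
          induction j with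
          | zero => intro _; simpa using ih (by omega)
          | succ j ihj =>
            intro hjJ
            have hjs : j * s t ≤ 2 ^ t :=
              (Nat.mul_le_mul_right _ (by rw [hJ] at hjJ; simp only at hjJ; omega)).trans hJ1
            have h1 := hstep t ht (2 ^ t + j * s t) (Nat.le_add_right _ _)
              (p ^ e t j • u) (hmem u hu t ht (by omega) j (by omega))
              (p ^ e t j • v) (hmem v hv t ht (by omega) j (by omega))
            have hE : e t j = N - (2 ^ t + j * s t) - 2 * s t := rfl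
            have hbig : 2 ^ t + j * s t + 2 * s t ≤ N := by omega
            rw [← smul_sub, smul_smul, smul_smul, ← pow_add, ← pow_add,
              show 2 * s t + e t j = N - (2 ^ t + j * s t) by omega,
              show s t + e t j = N - (2 ^ t + (j + 1) * s t) by
                rw [add_mul, one_mul]; omega] at h1
            have h2 := h1 (ihj (by omega))
            rw [add_assoc, ← Nat.succ_mul] at h2
            exact h2
        have h3 := hj (J t) le_rfl
        have hJs : J t * s t = 2 ^ t / s t * s t + s t := by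
          rw [hJ]; simp only; rw [add_mul, one_mul]
        exact hdown (2 ^ t + J t * s t) (2 ^ (t + 1)) (by
          have : J t * s t = (2 ^ t / s t + 1) * s t := rfl
          omega) (by omega) h3
    exact hind T hT1 le_rfl
  -- the final cover
  have hsub : Gcᶜ ⊆ ⋃ a ∈ cs, (fun x : UnitAddCircle => p ^ (N - 2 ^ T) • x) ⁻¹'
      Metric.ball (if h : ∃ u, u ∉ Gc ∧ p ^ (N - 2 ^ t₁) • u ∈
        Metric.ball a (1 / (p : ℝ) ^ (2 ^ t₁) / 2) then p ^ (N - 2 ^ T) • h.choose else 0) δ := by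
    intro u hu
    have h1 := hcov (Set.mem_univ (p ^ (N - 2 ^ t₁) • u))
    simp only [Set.mem_iUnion] at h1
    obtain ⟨a, ha, hua⟩ := h1
    simp only [Set.mem_iUnion]
    refine ⟨a, hcfin.mem_toFinset.mpr ha, ?_⟩
    have hex : ∃ u, u ∉ Gc ∧ p ^ (N - 2 ^ t₁) • u ∈
        Metric.ball a (1 / (p : ℝ) ^ (2 ^ t₁) / 2) := ⟨u, hu, hua⟩
    rw [Set.mem_preimage, dif_pos hex]
    obtain ⟨hv, hva⟩ := hex.choose_spec
    set v := hex.choose with hvdef
    have h2 : ‖p ^ (N - 2 ^ t₁) • (u - v)‖ ≤ 1 / (p : ℝ) ^ (2 ^ t₁) := by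
      rw [smul_sub, ← dist_eq_norm]
      rw [Metric.mem_ball] at hua hva
      have := dist_triangle_right (p ^ (N - 2 ^ t₁) • u) (p ^ (N - 2 ^ t₁) • v) a
      linarith
    have h3 := hgood u hu v hv h2
    rw [Metric.mem_ball, dist_eq_norm, ← smul_sub]
    exact lt_of_le_of_lt h3 hTδ
  have h1 : μ.real Gcᶜ ≤ (cs.card : ℝ) * (1 / (4 * ((cs.card : ℝ) + 1))) := by
    refine (measureReal_mono hsub (measure_ne_top _ _)).trans
      ((measureReal_biUnion_finset_le _ _).trans ?_)
    rw [← nsmul_eq_mul]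
    refine Finset.sum_le_card_nsmul _ _ _ fun a _ => ?_
    rw [measureReal_pre hμp _ Metric.isOpen_ball.measurableSet]
    exact hsm _
  have h2 : (cs.card : ℝ) * (1 / (4 * ((cs.card : ℝ) + 1))) ≤ 1 / 4 := by
    rw [mul_one_div, div_le_div_iff₀ (by positivity) (by norm_num)]
    have : (0 : ℝ) ≤ cs.card := Nat.cast_nonneg _
    nlinarith
  have h3 : (1 : ℝ) ≤ μ.real Gc + μ.real Gcᶜ := by
    have h4 := measureReal_union_le (μ := μ) Gc Gcᶜ
    rw [Set.union_compl_self] at h4
    simpa using h4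
  linarith

end Pool.Agent.H.MP_96e181_an.Blk
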