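import Mathlib
import Pool.Agent.H.MP_96e181_an.blk.Defs

set_option autoImplicit false

open MeasureTheory

namespace Pool.Agent.H.MP_96e181_an.Blk

instance : IsProbabilityMeasure (volume : Measure UnitAddCircle) :=
  ⟨by simp⟩

theorem integral_fourier_ne {k : ℤ} (hk : k ≠ 0) :
    ∫ x : UnitAddCircle, (fourier k x : ℂ) = 0 :=
  integral_eq_zero_of_add_right_eq_neg (fourier_add_half_inv_index hk one_pos)

theorem coef_zero {μ : Measure UnitAddCircle} [IsProbabilityMeasure μ] : coef μ 0 = 1 := by
  unfold coef
  simp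

theorem integrable_fourier {μ : Measure UnitAddCircle} [IsProbabilityMeasure μ] (k : ℤ) :
    Integrable (fun x : UnitAddCircle => (fourier k x : ℂ)) μ := by
  refine Integrable.of_bound (C := 1) (fourier k).continuous.aestronglyMeasurable ?_
  exact Filter.Eventually.of_forall fun x => by
    simp [fourier_apply]

theorem nn_inj {p q : ℕ} (hp : 2 ≤ p) (hq : 2 ≤ q) (hpq : Nat.Coprime p q) :
    Function.Injective (nn p q) := by
  rintro ⟨a, b⟩ ⟨c, d⟩ h
  unfold nn at h
  simp only at h
  have key : ∀ (a b c d : ℕ), p ^ a * q ^ b = p ^ c * q ^ d → a ≤ c → a = c ∧ b = d := by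
    intro a b c d h hac
    have h1 : q ^ b = p ^ (c - a) * q ^ d := by
      have : p ^ a * q ^ b = p ^ a * (p ^ (c - a) * q ^ d) := by
        rw [h, ← mul_assoc, ← pow_add, Nat.add_sub_cancel' hac]
      exact Nat.eq_of_mul_eq_mul_left (by positivity) this
    have h2 : p ^ (c - a) ∣ q ^ b := ⟨_, h1⟩
    have h3 : Nat.Coprime (p ^ (c - a)) (q ^ b) := Nat.Coprime.pow _ _ hpq
    have h4 : p ^ (c - a) = 1 := Nat.Coprime.eq_one_of_dvd h3 h2
    have h5 : c - a = 0 := by
      by_contra hne
      have := Nat.one_lt_pow hne (by omega : 1 < p)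
      omega
    have h6 : a = c := by omega
    refine ⟨h6, ?_⟩
    rw [h4, one_mul] at h1
    exact Nat.pow_right_injective hq h1
  rcases le_total a c with hac | hac
  · obtain ⟨h1, h2⟩ := key a b c d h hac
    rw [h1, h2]
  · obtain ⟨h1, h2⟩ := key c d a b h.symm hac
    rw [h1, h2]

/-- Lebesgue measure has square-root cancellation. -/
theorem lebesgue_cancel {p q : ℕ} (hp : 2 ≤ p) (hq : 2 ≤ q) (hpq : Nat.Coprime p q) (k : ℤ) :
    SqrtCancel p q (volume : Measure UnitAddCircle) k 1 0 := by
  intro s F hF
  rw [Real.rpow_zero, one_mul, one_mul]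
  by_cases hk : k = 0
  · subst hk
    simp [coef_zero]
  have hc : coef (volume : Measure UnitAddCircle) k = 0 := integral_fourier_ne hk
  simp only [hc, sub_zero]
  apply le_of_eq
  -- complex form
  have hsq : ∀ x : UnitAddCircle,
      ((‖∑ v ∈ F, (fourier (k * (nn p q v : ℤ)) x : ℂ)‖ ^ 2 : ℝ) : ℂ) =
      ∑ v ∈ F, ∑ w ∈ F, (fourier (k * (nn p q v : ℤ) - k * (nn p q w : ℤ)) x : ℂ) := by
    intro x
    rw [Complex.ofReal_pow, ← Complex.mul_conj', map_sum, Finset.sum_mul_sum]
    refine Finset.sum_congr rfl fun v _ => Finset.sum_congr rfl fun w _ => ?_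
    rw [sub_eq_add_neg, fourier_add, fourier_neg]
  have h1 : ((∫ x : UnitAddCircle, ‖∑ v ∈ F, (fourier (k * (nn p q v : ℤ)) x : ℂ)‖ ^ 2 : ℝ) : ℂ) =
      (F.card : ℂ) := by
    rw [← integral_complex_ofReal]
    simp_rw [hsq]
    rw [integral_finsetSum _ fun v _ => integrable_finsetSum _ fun w _ => integrable_fourier _]
    have : ∀ v ∈ F, ∫ x : UnitAddCircle,
        ∑ w ∈ F, (fourier (k * (nn p q v : ℤ) - k * (nn p q w : ℤ)) x : ℂ) = 1 := by
      intro v hv
      rw [integral_finsetSum _ fun w _ => integrable_fourier _]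
      rw [Finset.sum_eq_single v]
      · rw [sub_self]
        exact coef_zero (μ := volume)
      · intro w _ hwv
        apply integral_fourier_ne
        intro h0
        have h2 : k * ((nn p q v : ℤ) - nn p q w) = 0 := by rw [mul_sub]; exact h0
        rcases mul_eq_zero.1 h2 with h3 | h3
        · exact hk h3
        · apply hwv
          have : (nn p q v) = nn p q w := by
            have := sub_eq_zero.1 h3
            exact_mod_cast this
          exact (nn_inj hp hq hpq this).symm
      · intro h
        exact absurd hv h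
    rw [Finset.sum_congr rfl this]
    simp
  exact_mod_cast h1

/-- A measure all of whose nonzero Fourier coefficients vanish is Lebesgue. -/
theorem eq_volume_of_coef {μ : Measure UnitAddCircle} [IsProbabilityMeasure μ]
    (h : ∀ k : ℤ, k ≠ 0 → coef μ k = 0) : μ = (volume : Measure UnitAddCircle) := by
  -- integrals of continuous complex functions agree
  have hI : ∀ (ν : Measure UnitAddCircle) [IsProbabilityMeasure ν] (g : C(UnitAddCircle, ℂ)),
      Integrable (fun x => g x) ν := by
    intro ν _ g
    refine Integrable.of_bound (C := ‖g‖) g.continuous.aestronglyMeasurable ?_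
    exact Filter.Eventually.of_forall fun x => g.norm_coe_le_norm x
  have key : ∀ g : C(UnitAddCircle, ℂ), ∫ x, g x ∂μ = ∫ x, g x := by
    intro g
    have hg : g ∈ (Submodule.span ℂ (Set.range (@fourier (1 : ℝ)))).topologicalClosure := by
      rw [span_fourier_closure_eq_top]
      trivial
    have hcl : IsClosed {g : C(UnitAddCircle, ℂ) | ∫ x, g x ∂μ = ∫ x, g x} := by
      refine isClosed_eq ?_ ?_
      · exact (continuous_iff_continuousAt.2 fun g₀ => by
          rw [Metric.continuousAt_iff]
          intro ε hε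
          refine ⟨ε, hε, fun {g} hg => ?_⟩
          rw [dist_eq_norm, ← integral_sub (hI μ g) (hI μ g₀)]
          refine lt_of_le_of_lt (norm_integral_le_of_norm_le_const (C := ‖g - g₀‖)
            (Filter.Eventually.of_forall fun x => (g - g₀).norm_coe_le_norm x)) ?_
          simpa [dist_eq_norm] using hg)
      · exact (continuous_iff_continuousAt.2 fun g₀ => by
          rw [Metric.continuousAt_iff]
          intro ε hε
          refine ⟨ε, hε, fun {g} hg => ?_⟩
          rw [dist_eq_norm, ← integral_sub (hI volume g) (hI volume g₀)]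
          refine lt_of_le_of_lt (norm_integral_le_of_norm_le_const (C := ‖g - g₀‖)
            (Filter.Eventually.of_forall fun x => (g - g₀).norm_coe_le_norm x)) ?_
          simpa [dist_eq_norm] using hg)
    have hsub : (Submodule.span ℂ (Set.range (@fourier (1 : ℝ))) : Set C(UnitAddCircle, ℂ)) ⊆
        {g : C(UnitAddCircle, ℂ) | ∫ x, g x ∂μ = ∫ x, g x} := by
      intro g hg
      refine Submodule.span_induction ?_ ?_ ?_ ?_ hg
      · rintro _ ⟨k, rfl⟩
        by_cases hk : k = 0
        · subst hk
          show coef μ 0 = coef volume 0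
          rw [coef_zero, coef_zero]
        · show coef μ k = _
          rw [h k hk, integral_fourier_ne hk]
      · simp
      · intro a b _ _ ha hb
        simp only [Set.mem_ofPred_eq, ContinuousMap.add_apply] at ha hb ⊢
        rw [integral_add (hI μ a) (hI μ b), integral_add (hI volume a) (hI volume b), ha, hb]
      · intro c a _ ha
        simp only [Set.mem_ofPred_eq, ContinuousMap.smul_apply] at ha ⊢
        rw [integral_smul, integral_smul, ha]
    exact closure_minimal hsub hcl hg
  apply ext_of_forall_integral_eq_of_IsFiniteMeasure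
  intro f
  let g : C(UnitAddCircle, ℂ) := ⟨fun x => (f x : ℂ), by fun_prop⟩
  have hg := key g
  have h1 : ∫ x, g x ∂μ = ((∫ x, f x ∂μ : ℝ) : ℂ) := integral_complex_ofReal
  have h2 : ∫ x, g x = ((∫ x, f x : ℝ) : ℂ) := integral_complex_ofReal
  rw [h1, h2] at hg
  exact_mod_cast hg

end Pool.Agent.H.MP_96e181_an.Blk
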