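import Mathlib
import Pool.Agent.H.MP_96e181_an.blk.Defs

set_option autoImplicit false

open MeasureTheory

namespace Pool.Agent.H.MP_96e181_an.Blk

namespace SepAux

lemma fourier_add_pt (n : ℤ) (x y : UnitAddCircle) :
    (fourier n (x + y) : ℂ) = fourier n x * fourier n y := by
  simp only [fourier_apply, smul_add, AddCircle.toCircle_add, Circle.coe_mul]

lemma fourier_mul_nat (k : ℤ) (n : ℕ) (x : UnitAddCircle) :
    (fourier (k * (n : ℤ)) x : ℂ) = fourier k (n • x) := by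
  simp only [fourier_apply, mul_smul, natCast_zsmul]

lemma exists_lift (e : UnitAddCircle) : ∃ r : ℝ, (r : UnitAddCircle) = e ∧ |r| = ‖e‖ := by
  obtain ⟨x, rfl⟩ := QuotientAddGroup.mk_surjective e
  refine ⟨x - round x, ?_, ?_⟩
  · show ((x - round x : ℝ) : UnitAddCircle) = (x : UnitAddCircle)
    rw [AddCircle.coe_sub]
    have : ((round x : ℝ) : UnitAddCircle) = 0 := by
      rw [AddCircle.coe_eq_zero_iff]
      exact ⟨round x, by simp⟩
    rw [this, sub_zero]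
  · exact (UnitAddCircle.norm_eq (x := x)).symm

lemma norm_coe_le (x : ℝ) : ‖(x : UnitAddCircle)‖ ≤ |x| := by
  rw [UnitAddCircle.norm_eq]
  simpa using round_le x 0

/-- Upper bound of `‖e(k x) - 1‖`. -/
lemma fourier_sub_one_le (k : ℤ) (x : ℝ) :
    ‖(fourier k (x : UnitAddCircle) : ℂ) - 1‖ ≤ 2 * Real.pi * |(k : ℝ)| * |x| := by
  rw [fourier_coe_apply]
  have h := Real.norm_exp_I_mul_ofReal_sub_one_le (x := 2 * Real.pi * k * x)
  have e : (2 * (Real.pi : ℂ) * Complex.I * (k : ℂ) * (x : ℂ) / ((1 : ℝ) : ℂ)) =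
      Complex.I * ((2 * Real.pi * k * x : ℝ) : ℂ) := by
    push_cast; ring
  rw [e]
  refine h.trans (le_of_eq ?_)
  rw [Real.norm_eq_abs, abs_mul, abs_mul, abs_mul, abs_of_pos Real.pi_pos]
  norm_num

/-- Lower bound of `‖e(z) - 1‖`. -/
lemma four_norm_le (z : UnitAddCircle) :
    4 * ‖z‖ ≤ ‖(fourier 1 z : ℂ) - 1‖ := by
  obtain ⟨r, rfl, hn⟩ := exists_lift z
  rw [fourier_coe_apply, ← hn]
  have h2 : |r| ≤ 1 / 2 := by
    rw [hn]
    have := AddCircle.norm_le_half_period (1 : ℝ) one_ne_zero (x := (r : UnitAddCircle))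
    simpa using this
  have e : (2 * (Real.pi : ℂ) * Complex.I * ((1 : ℤ) : ℂ) * (r : ℂ) / ((1 : ℝ) : ℂ)) =
      Complex.I * ((2 * Real.pi * r : ℝ) : ℂ) := by
    push_cast; ring
  rw [e, Complex.norm_exp_I_mul_ofReal_sub_one]
  have e2 : 2 * Real.pi * r / 2 = Real.pi * r := by ring
  rw [e2, Real.norm_eq_abs, abs_mul]
  have h3 : 2 * |r| ≤ |Real.sin (Real.pi * r)| := by
    rw [Real.abs_sin_eq_sin_abs_of_abs_le_pi (by
      rw [abs_mul, abs_of_pos Real.pi_pos]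
      nlinarith [Real.pi_pos]), abs_mul, abs_of_pos Real.pi_pos]
    have := Real.mul_le_sin (x := Real.pi * |r|) (by positivity) (by nlinarith [Real.pi_pos])
    refine le_trans (le_of_eq ?_) this
    field_simp
  rw [abs_of_pos (by norm_num : (0:ℝ) < 2)]
  linarith

lemma norm_torsion_ge {N : ℕ} (hN : 1 ≤ N) {z : UnitAddCircle} (h : N • z = 0) (hz : z ≠ 0) :
    1 / (N : ℝ) ≤ ‖z‖ := by
  obtain ⟨r, rfl, hn⟩ := exists_lift z
  rw [← hn]
  have hr0 : r ≠ 0 := by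
    rintro rfl
    exact hz (by simp)
  have h1 : ((N * r : ℝ) : UnitAddCircle) = 0 := by
    rw [← h, ← nsmul_eq_mul]
    rfl
  rw [AddCircle.coe_eq_zero_iff] at h1
  obtain ⟨m, hm⟩ := h1
  have hN' : (0 : ℝ) < N := by exact_mod_cast hN
  have hm' : (m : ℝ) = N * r := by simpa using hm
  have hm0 : m ≠ 0 := by
    rintro rfl
    have : (N : ℝ) * r = 0 := by rw [← hm']; simp
    rcases mul_eq_zero.1 this with h2 | h2
    · exact hN'.ne' h2
    · exact hr0 h2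
  have h3 : (1 : ℝ) ≤ |(m : ℝ)| := by exact_mod_cast Int.one_le_abs hm0
  rw [hm', abs_mul, abs_of_pos hN'] at h3
  rw [div_le_iff₀ hN']
  linarith

/-- A divisor of `p ^ l` smaller than `2 ^ l` divides `p ^ (l - 1)`. -/
lemma dvd_pred {p l g : ℕ} (hp : 2 ≤ p) (h : g ∣ p ^ l) (hg : g < 2 ^ l) : g ∣ p ^ (l - 1) := by
  have hp0 : p ≠ 0 := by omega
  have hpl : p ^ l ≠ 0 := pow_ne_zero _ hp0
  have hg0 : g ≠ 0 := by
    rintro rfl
    exact hpl (by simpa using h)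
  rw [← Nat.factorization_le_iff_dvd hg0 (pow_ne_zero _ hp0)]
  have h1 := (Nat.factorization_le_iff_dvd hg0 hpl).2 h
  intro r
  have h2 := h1 r
  rw [Nat.factorization_pow] at h2 ⊢
  simp only [Finsupp.smul_apply, smul_eq_mul] at h2 ⊢
  by_cases hr : r.Prime
  · rcases Nat.eq_zero_or_pos (p.factorization r) with h3 | h3
    · rw [h3, mul_zero] at h2
      omega
    · have h4 : g.factorization r < l := by
        by_contra hcon
        push Not at hcon
        have h5 : r ^ l ∣ g := (Nat.pow_dvd_pow r hcon).trans (Nat.ordProj_dvd g r)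
        have h6 : r ^ l ≤ g := Nat.le_of_dvd (Nat.pos_of_ne_zero hg0) h5
        have h7 : 2 ^ l ≤ r ^ l := Nat.pow_le_pow_left hr.two_le l
        omega
      calc g.factorization r ≤ l - 1 := by omega
        _ ≤ (l - 1) * p.factorization r := Nat.le_mul_of_pos_right _ h3
  · rw [Nat.factorization_eq_zero_of_not_prime _ hr]
    exact Nat.zero_le _

lemma zsmul_ne_zero {p l : ℕ} (hp : 2 ≤ p) {k : ℤ} (hk : k ≠ 0) (hkl : k.natAbs < 2 ^ l)
    {ξ : UnitAddCircle} (h1 : p ^ l • ξ = 0) (h2 : p ^ (l - 1) • ξ ≠ 0) : k • ξ ≠ 0 := by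
  intro h3
  have h4 : k.natAbs • ξ = 0 := by
    rcases Int.natAbs_eq k with h | h
    · rw [← natCast_zsmul, ← h]; exact h3
    · have : ((k.natAbs : ℤ)) • ξ = 0 := by
        have h5 : (k.natAbs : ℤ) = -k := by omega
        rw [h5, neg_smul, h3, neg_zero]
      rwa [natCast_zsmul] at this
  have h5 : Nat.gcd k.natAbs (p ^ l) • ξ = 0 := by
    rw [← addOrderOf_dvd_iff_nsmul_eq_zero] at h4 h1 ⊢
    exact Nat.dvd_gcd h4 h1
  have h6 : Nat.gcd k.natAbs (p ^ l) ∣ p ^ (l - 1) := by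
    refine dvd_pred hp (Nat.gcd_dvd_right _ _) (lt_of_le_of_lt ?_ hkl)
    exact Nat.gcd_le_left _ (Int.natAbs_pos.2 hk)
  refine h2 ?_
  rw [← addOrderOf_dvd_iff_nsmul_eq_zero] at h5 ⊢
  exact h5.trans h6

lemma fourier_smul_one (k : ℤ) (z : UnitAddCircle) : (fourier k z : ℂ) = fourier 1 (k • z) := by
  simp only [fourier_apply, one_smul]

lemma norm_fourier (k : ℤ) (z : UnitAddCircle) : ‖(fourier k z : ℂ)‖ = 1 := by
  simp only [fourier_apply, Circle.norm_coe]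

/-- The key inequality. -/
lemma key {p q l d M : ℕ} (hp : 2 ≤ p) (hq : 2 ≤ q) (hd : q ^ d ≡ 1 [MOD p ^ l])
    {k : ℤ} (hk : k ≠ 0) (hkl : k.natAbs < 2 ^ l) {c : ℂ} {δ : ℝ}
    (hM : 1 ≤ M) {X Y : UnitAddCircle}
    (hX : ‖∑ j ∈ Finset.range M, ((fourier (k * ((q ^ (d * j) : ℕ) : ℤ)) X : ℂ) - c)‖ <
      M * (‖c‖ / (p : ℝ) ^ l))
    (hY : ‖∑ j ∈ Finset.range M, ((fourier (k * ((q ^ (d * j) : ℕ) : ℤ)) Y : ℂ) - c)‖ <
      M * (‖c‖ / (p : ℝ) ^ l))
    (hδ : 2 * Real.pi * |(k : ℝ)| * (q : ℝ) ^ (d * M) * δ ≤ ‖c‖ / (p : ℝ) ^ l)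
    (hXY : ‖p ^ l • (X - Y)‖ ≤ δ) : ‖p ^ (l - 1) • (X - Y)‖ ≤ δ / (p : ℝ) ∨ l = 0 := by
  rcases Nat.eq_zero_or_pos l with hl | hl
  · exact Or.inr hl
  left
  have hp0 : (0 : ℝ) < p := by positivity
  have hpl : (0 : ℝ) < (p : ℝ) ^ l := by positivity
  obtain ⟨r, hr, hn⟩ := exists_lift (p ^ l • (X - Y))
  set τ : UnitAddCircle := ((r / (p : ℝ) ^ l : ℝ) : UnitAddCircle) with hτ
  have hτl : p ^ l • τ = p ^ l • (X - Y) := by
    rw [← hr, hτ, ← AddCircle.coe_nsmul]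
    congr 1
    rw [nsmul_eq_mul]
    push_cast
    field_simp
  set ξ : UnitAddCircle := X - Y - τ with hξ
  have hξl : p ^ l • ξ = 0 := by rw [hξ, smul_sub, hτl, sub_self]
  by_cases hc : p ^ (l - 1) • ξ = 0
  · have h1 : p ^ (l - 1) • (X - Y) = p ^ (l - 1) • τ := by
      rw [hξ, smul_sub, sub_eq_zero] at hc
      exact hc
    rw [h1, hτ, ← AddCircle.coe_nsmul]
    refine (norm_coe_le _).trans ?_
    rw [nsmul_eq_mul]
    push_cast
    have h2 : (p : ℝ) ^ (l - 1) * (r / (p : ℝ) ^ l) = r / p := by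
      have : (p : ℝ) ^ l = (p : ℝ) ^ (l - 1) * p := by
        rw [← pow_succ]; congr 1; omega
      rw [this]
      field_simp
    rw [h2, abs_div, abs_of_pos hp0, hn]
    exact div_le_div_of_nonneg_right hXY hp0.le
  · exfalso
    -- invariance of ξ
    have hinv : ∀ j, q ^ (d * j) • ξ = ξ := by
      intro j
      have h1 : q ^ (d * j) ≡ 1 [MOD p ^ l] := by
        rw [pow_mul]
        simpa using hd.pow j
      have h2 : p ^ l ∣ q ^ (d * j) - 1 :=
        (Nat.modEq_iff_dvd' (Nat.one_le_pow _ _ (by omega))).1 h1.symm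
      obtain ⟨m, hm⟩ := h2
      have h3 : q ^ (d * j) = m * p ^ l + 1 := by
        have : 1 ≤ q ^ (d * j) := Nat.one_le_pow _ _ (by omega)
        rw [mul_comm m]; omega
      rw [h3, add_smul, mul_smul, hξl, smul_zero, zero_add, one_smul]
    set ζ : ℂ := fourier k ξ with hζ
    have hζ1 : ‖ζ‖ = 1 := norm_fourier k ξ
    have hζ2 : 4 / (p : ℝ) ^ l ≤ ‖ζ - 1‖ := by
      rw [hζ, fourier_smul_one]
      refine le_trans ?_ (four_norm_le _)
      have h1 : p ^ l • (k • ξ) = 0 := by rw [smul_comm, hξl, smul_zero]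
      have h2 := norm_torsion_ge (Nat.one_le_pow l p (by omega)) h1
        (zsmul_ne_zero hp hk hkl hξl hc)
      push_cast at h2
      calc 4 / (p : ℝ) ^ l = 4 * (1 / (p : ℝ) ^ l) := by ring
        _ ≤ _ := by linarith
    set ex : ℕ → UnitAddCircle → ℂ := fun j x => fourier (k * ((q ^ (d * j) : ℕ) : ℤ)) x with hex
    have hsplit : ∀ j, ex j X = ζ * ex j Y * ex j τ := by
      intro j
      have h1 : X = ξ + Y + τ := by rw [hξ]; abel
      simp only [hex]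
      rw [h1, fourier_add_pt, fourier_add_pt]
      congr 2
      rw [fourier_mul_nat, hinv]
    have hτb : ∀ j ∈ Finset.range M, ‖ex j τ - 1‖ ≤ ‖c‖ / (p : ℝ) ^ l := by
      intro j hj
      rw [Finset.mem_range] at hj
      have h1 := fourier_sub_one_le (k * ((q ^ (d * j) : ℕ) : ℤ)) (r / (p : ℝ) ^ l)
      refine h1.trans (le_trans ?_ hδ)
      push_cast
      rw [abs_mul, abs_of_nonneg (a := (q : ℝ) ^ (d * j)) (by positivity)]
      have h2 : (q : ℝ) ^ (d * j) ≤ (q : ℝ) ^ (d * M) :=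
        pow_le_pow_right₀ (by exact_mod_cast (by omega : 1 ≤ q)) (Nat.mul_le_mul_left _ hj.le)
      have h3 : |r / (p : ℝ) ^ l| ≤ δ := by
        rw [abs_div, abs_of_pos hpl, hn]
        have h4 : (1 : ℝ) ≤ (p : ℝ) ^ l := one_le_pow₀ (by exact_mod_cast (by omega : 1 ≤ p))
        exact (div_le_self (norm_nonneg _) h4).trans hXY
      have h5 : 0 ≤ δ := (norm_nonneg _).trans hXY
      have h6 := Real.pi_pos
      calc 2 * Real.pi * (|(k : ℝ)| * (q : ℝ) ^ (d * j)) * |r / (p : ℝ) ^ l|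
          ≤ 2 * Real.pi * (|(k : ℝ)| * (q : ℝ) ^ (d * M)) * δ := by gcongr
        _ = _ := by ring
    have hsum : ∑ j ∈ Finset.range M, (ex j X - c) - ζ * ∑ j ∈ Finset.range M, (ex j Y - c) =
        ∑ j ∈ Finset.range M, ζ * ex j Y * (ex j τ - 1) + (M : ℂ) * (c * (ζ - 1)) := by
      rw [Finset.mul_sum, ← Finset.sum_sub_distrib]
      have : (M : ℂ) * (c * (ζ - 1)) = ∑ j ∈ Finset.range M, c * (ζ - 1) := by
        rw [Finset.sum_const, Finset.card_range, nsmul_eq_mul]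
      rw [this, ← Finset.sum_add_distrib]
      refine Finset.sum_congr rfl fun j _ => ?_
      rw [hsplit j]
      ring
    have hb : ‖∑ j ∈ Finset.range M, ζ * ex j Y * (ex j τ - 1)‖ ≤ M * (‖c‖ / (p : ℝ) ^ l) := by
      refine (norm_sum_le _ _).trans ?_
      have h1 : ∀ j ∈ Finset.range M, ‖ζ * ex j Y * (ex j τ - 1)‖ ≤ ‖c‖ / (p : ℝ) ^ l := by
        intro j hj
        rw [norm_mul, norm_mul, hζ1, norm_fourier, one_mul, one_mul]
        exact hτb j hj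
      refine (Finset.sum_le_sum h1).trans (le_of_eq ?_)
      rw [Finset.sum_const, Finset.card_range, nsmul_eq_mul]
    have hmain : (M : ℝ) * (‖c‖ * ‖ζ - 1‖) < 3 * (M * (‖c‖ / (p : ℝ) ^ l)) := by
      have h1 : (M : ℂ) * (c * (ζ - 1)) = (∑ j ∈ Finset.range M, (ex j X - c) -
          ζ * ∑ j ∈ Finset.range M, (ex j Y - c)) -
          ∑ j ∈ Finset.range M, ζ * ex j Y * (ex j τ - 1) := by
        rw [hsum]; ring
      have h2 : ‖(M : ℂ) * (c * (ζ - 1))‖ = (M : ℝ) * (‖c‖ * ‖ζ - 1‖) := by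
        rw [norm_mul, norm_mul, Complex.norm_natCast]
      rw [← h2, h1]
      have h3 := norm_sub_le (∑ j ∈ Finset.range M, (ex j X - c) -
          ζ * ∑ j ∈ Finset.range M, (ex j Y - c))
          (∑ j ∈ Finset.range M, ζ * ex j Y * (ex j τ - 1))
      have h4 := norm_sub_le (∑ j ∈ Finset.range M, (ex j X - c))
          (ζ * ∑ j ∈ Finset.range M, (ex j Y - c))
      rw [norm_mul, hζ1, one_mul] at h4
      linarith
    have hM' : (0 : ℝ) < M := by exact_mod_cast hM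
    have h5 : (M : ℝ) * (‖c‖ * (4 / (p : ℝ) ^ l)) ≤ (M : ℝ) * (‖c‖ * ‖ζ - 1‖) := by gcongr
    have h6 : (M : ℝ) * (‖c‖ * (4 / (p : ℝ) ^ l)) = 4 * (M * (‖c‖ / (p : ℝ) ^ l)) := by ring
    have h7 : 0 ≤ (M : ℝ) * (‖c‖ / (p : ℝ) ^ l) := by positivity
    linarith

end SepAux

open SepAux in
/-- Two points with good averages along `q ^ (d j)` cannot branch. -/
theorem sep {p q : ℕ} (hp : 2 ≤ p) (hq : 2 ≤ q) (hpq : Nat.Coprime p q)
    {μ : Measure UnitAddCircle} [IsProbabilityMeasure μ]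
    {k : ℤ} (hk : k ≠ 0) (hck : coef μ k ≠ 0) {C θ : ℝ} (H : SqrtCancel p q μ k C θ) :
    ∃ l : ℕ, 1 ≤ l ∧ ∀ η : ℝ, 0 < η → ∃ K₀ : ℕ, ∀ K, K₀ ≤ K →
      ∃ B : Set UnitAddCircle, MeasurableSet B ∧ μ.real B ≤ η ∧
        ∀ X, X ∉ B → ∀ Y, Y ∉ B → ‖p ^ l • (X - Y)‖ ≤ 1 / (p : ℝ) ^ K →
          ‖p ^ (l - 1) • (X - Y)‖ ≤ 1 / (p : ℝ) ^ (K + 1) := by
  obtain ⟨l, hl⟩ : ∃ l : ℕ, k.natAbs < 2 ^ l := ⟨k.natAbs, Nat.lt_two_pow_self⟩
  have hl1 : 1 ≤ l := by
    rcases Nat.eq_zero_or_pos l with h | h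
    · subst h
      have := Int.natAbs_pos.2 hk
      omega
    · exact h
  refine ⟨l, hl1, fun η hη => ?_⟩
  set c := coef μ k with hc
  set d := Nat.totient (p ^ l) with hd
  have hd1 : 1 ≤ d := Nat.totient_pos.2 (by positivity)
  have hmod : q ^ d ≡ 1 [MOD p ^ l] := Nat.ModEq.pow_totient (hpq.symm.pow_right l)
  have hcn : 0 < ‖c‖ := norm_pos_iff.2 hck
  have hp0 : (0 : ℝ) < p := by positivity
  have hpl : (0 : ℝ) < (p : ℝ) ^ l := by positivity
  obtain ⟨M, hM⟩ := exists_nat_gt (max 0 (C / ((‖c‖ / (p : ℝ) ^ l) ^ 2 * η)))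
  have hM0 : (0 : ℝ) < M := (le_max_left _ _).trans_lt hM
  have hM1 : 1 ≤ M := by exact_mod_cast hM0
  have hMC : C / ((‖c‖ / (p : ℝ) ^ l) ^ 2 * η) < M := (le_max_right _ _).trans_lt hM
  -- choice of K₀
  obtain ⟨K₀, hK₀⟩ : ∃ K₀ : ℕ, 2 * Real.pi * |(k : ℝ)| * (q : ℝ) ^ (d * M) /
      (‖c‖ / (p : ℝ) ^ l) < (p : ℝ) ^ K₀ :=
    pow_unbounded_of_one_lt _ (by exact_mod_cast (by omega : 1 < p))
  refine ⟨K₀, fun K hK => ?_⟩
  set S : UnitAddCircle → ℂ := fun x =>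
    ∑ j ∈ Finset.range M, ((fourier (k * ((q ^ (d * j) : ℕ) : ℤ)) x : ℂ) - c) with hS
  have hScont : Continuous S := by
    simp only [hS]
    fun_prop
  set ε : ℝ := (M * (‖c‖ / (p : ℝ) ^ l)) ^ 2 with hε
  have hε0 : 0 < ε := by positivity
  have hint : ∫ x, ‖S x‖ ^ 2 ∂μ ≤ C * M := by
    have h1 := H 1 ((Finset.range M).image fun j => (0, d * j)) (by
      intro v hv
      rw [Finset.mem_image] at hv
      obtain ⟨j, -, rfl⟩ := hv
      simp)
    have hinj : Set.InjOn (fun j : ℕ => ((0 : ℕ), d * j)) (Finset.range M : Set ℕ) := by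
      intro a _ b _ hab
      simp only [Prod.mk.injEq, true_and] at hab
      exact Nat.eq_of_mul_eq_mul_left hd1 hab
    rw [Finset.card_image_of_injOn hinj, Finset.card_range, Nat.cast_one, Real.one_rpow,
      mul_one] at h1
    refine le_trans (le_of_eq ?_) h1
    refine integral_congr_ae (Filter.Eventually.of_forall fun x => ?_)
    simp only [hS]
    rw [Finset.sum_image hinj, ← hc]
    simp only [nn, pow_zero, one_mul]
  have hmarkov := mul_meas_ge_le_integral_of_nonneg (μ := μ) (f := fun x => ‖S x‖ ^ 2)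
    (Filter.Eventually.of_forall fun x => by positivity)
    ((hScont.norm.pow 2).integrable_of_hasCompactSupport (HasCompactSupport.of_compactSpace _)) ε
  refine ⟨{x | ε ≤ ‖S x‖ ^ 2}, (isClosed_le continuous_const (hScont.norm.pow 2)).measurableSet,
    ?_, ?_⟩
  · have h1 : ε * μ.real {x | ε ≤ ‖S x‖ ^ 2} ≤ C * M := hmarkov.trans hint
    have h2 : C * M ≤ ε * η := by
      rw [div_lt_iff₀ (by positivity)] at hMC
      calc C * M ≤ (M * ((‖c‖ / (p : ℝ) ^ l) ^ 2 * η)) * M := by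
            exact mul_le_mul_of_nonneg_right hMC.le hM0.le
        _ = ε * η := by rw [hε]; ring
    exact le_of_mul_le_mul_left (h1.trans h2) hε0
  · intro X hX Y hY hXY
    have hb : ∀ Z : UnitAddCircle, Z ∉ {x | ε ≤ ‖S x‖ ^ 2} → ‖S Z‖ < M * (‖c‖ / (p : ℝ) ^ l) := by
      intro Z hZ
      have h1 : ‖S Z‖ ^ 2 < ε := by simpa using hZ
      exact lt_of_pow_lt_pow_left₀ 2 (by positivity) h1
    have hδ : 2 * Real.pi * |(k : ℝ)| * (q : ℝ) ^ (d * M) * (1 / (p : ℝ) ^ K) ≤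
        ‖c‖ / (p : ℝ) ^ l := by
      have h1 : (p : ℝ) ^ K₀ ≤ (p : ℝ) ^ K :=
        pow_le_pow_right₀ (by exact_mod_cast (by omega : 1 ≤ p)) hK
      have h2 := hK₀.le.trans h1
      rw [div_le_iff₀ (by positivity)] at h2
      rw [mul_one_div, div_le_iff₀ (by positivity)]
      linarith
    rcases key hp hq hmod hk hl hM1 (hb X hX) (hb Y hY) hδ hXY with h | h
    · refine h.trans (le_of_eq ?_)
      rw [pow_succ]
      field_simp
    · omega

end Pool.Agent.H.MP_96e181_an.Blk
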