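import Mathlib
import Pool.Agent.H.MP_96e181_an.blk.Defs

set_option autoImplicit false

open MeasureTheory

namespace Pool.Agent.H.MP_96e181_an.Blk

namespace StatAux

/-- Chebyshev with the square-root cancellation. -/
theorem cheb {p q : ℕ} {μ : Measure UnitAddCircle} [IsProbabilityMeasure μ] {k : ℤ} {C θ : ℝ}
    (H : SqrtCancel p q μ k C θ) {τ : ℝ} (hτ : 0 < τ) {s : ℕ} (hs : 1 ≤ s) {θ' : ℝ} (hθ : θ ≤ θ')
    {F : Finset (ℕ × ℕ)} (hF : F.Nonempty) (hFs : ∀ v ∈ F, v.1 < s) :
    μ.real {x | τ * F.card <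
      ‖∑ v ∈ F, ((fourier (k * (nn p q v : ℤ)) x : ℂ) - coef μ k)‖} ≤
      |C| / τ ^ 2 * (s : ℝ) ^ θ' / F.card := by
  have hN : (0 : ℝ) < F.card := by exact_mod_cast hF.card_pos
  set G : UnitAddCircle → ℝ := fun x =>
    ‖∑ v ∈ F, ((fourier (k * (nn p q v : ℤ)) x : ℂ) - coef μ k)‖ with hG
  have hGc : Continuous G := by
    apply Continuous.norm
    apply continuous_finsetSum
    intro v _
    exact ((fourier (k * (nn p q v : ℤ))).continuous).sub continuous_const
  have hGi : Integrable (fun x => G x ^ 2) μ := by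
    have h1 : Continuous (fun x => G x ^ 2) := hGc.pow 2
    exact h1.integrable_of_hasCompactSupport (HasCompactSupport.of_compactSpace _)
  have hms := mul_meas_ge_le_integral_of_nonneg (μ := μ) (f := fun x => G x ^ 2)
    (Filter.Eventually.of_forall (fun x => by positivity)) hGi ((τ * F.card) ^ 2)
  have h2 : ∫ x, G x ^ 2 ∂μ ≤ C * (s : ℝ) ^ θ * F.card := H s F hFs
  have hsub : {x | τ * F.card < G x} ⊆ {x | (τ * F.card) ^ 2 ≤ G x ^ 2} := by
    intro x hx
    simp only [Set.mem_ofPred_eq] at hx ⊢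
    have : 0 ≤ τ * F.card := by positivity
    exact pow_le_pow_left₀ this hx.le 2
  have h3 : μ.real {x | τ * F.card < G x} ≤ μ.real {x | (τ * F.card) ^ 2 ≤ G x ^ 2} :=
    measureReal_mono hsub
  have h4 : (s : ℝ) ^ θ ≤ (s : ℝ) ^ θ' :=
    Real.rpow_le_rpow_of_exponent_le (by exact_mod_cast hs) hθ
  have h5 : C * (s : ℝ) ^ θ ≤ |C| * (s : ℝ) ^ θ' := by
    have h6 : 0 ≤ (s : ℝ) ^ θ := by positivity
    calc C * (s : ℝ) ^ θ ≤ |C| * (s : ℝ) ^ θ := mul_le_mul_of_nonneg_right (le_abs_self C) h6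
      _ ≤ |C| * (s : ℝ) ^ θ' := mul_le_mul_of_nonneg_left h4 (abs_nonneg C)
  have h7 : (τ * F.card) ^ 2 * μ.real {x | (τ * F.card) ^ 2 ≤ G x ^ 2} ≤
      |C| * (s : ℝ) ^ θ' * F.card := by
    refine hms.trans (h2.trans ?_)
    exact mul_le_mul_of_nonneg_right h5 hN.le
  have h8 : μ.real {x | (τ * F.card) ^ 2 ≤ G x ^ 2} ≤ |C| / τ ^ 2 * (s : ℝ) ^ θ' / F.card := by
    have h9 : |C| / τ ^ 2 * (s : ℝ) ^ θ' / F.card =
        (|C| * (s : ℝ) ^ θ' * F.card) / (τ * F.card) ^ 2 := by
      field_simp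
    rw [h9, le_div_iff₀ (by positivity)]
    linarith [mul_comm ((τ * (F.card : ℝ)) ^ 2) (μ.real {x | (τ * F.card) ^ 2 ≤ G x ^ 2})]
  exact h3.trans h8

/-- The cut-off function. -/
theorem exists_cutoff (Z : Finset UnitAddCircle) (hZ : Z.Nonempty) {r : ℝ} (hr : 0 < r) :
    ∃ g : C(UnitAddCircle, ℝ), (∀ x, 0 ≤ g x) ∧ (∀ x, g x ≤ 1) ∧ (∀ x ∈ nbh Z r, g x = 0) ∧
      (∀ x, x ∉ nbh Z (2 * r) → g x = 1) := by
  have hZ' : (Z : Set UnitAddCircle).Nonempty := by exact_mod_cast hZ
  refine ⟨⟨fun x => min 1 (max 0 (Metric.infDist x (Z : Set UnitAddCircle) / r - 1)), ?_⟩,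
    ?_, ?_, ?_, ?_⟩
  · have h1 : Continuous (fun x : UnitAddCircle => Metric.infDist x (Z : Set UnitAddCircle)) :=
      Metric.continuous_infDist_pt _
    fun_prop
  · intro x
    simp only [ContinuousMap.coe_mk]
    exact le_min zero_le_one (le_max_left _ _)
  · intro x
    simp only [ContinuousMap.coe_mk]
    exact min_le_left _ _
  · intro x hx
    simp only [ContinuousMap.coe_mk]
    simp only [nbh, Set.mem_iUnion, Metric.mem_closedBall, exists_prop] at hx
    obtain ⟨z, hz, hzx⟩ := hx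
    have h1 : Metric.infDist x (Z : Set UnitAddCircle) ≤ r :=
      (Metric.infDist_le_dist_of_mem (by exact_mod_cast hz)).trans hzx
    have h2 : Metric.infDist x (Z : Set UnitAddCircle) / r - 1 ≤ 0 := by
      rw [sub_nonpos, div_le_one hr]; exact h1
    rw [max_eq_left h2]
    exact min_eq_right zero_le_one
  · intro x hx
    simp only [ContinuousMap.coe_mk]
    simp only [nbh, Set.mem_iUnion, Metric.mem_closedBall, exists_prop, not_exists, not_and,
      not_le] at hx
    obtain ⟨z, hz, hzd⟩ := (Z.finite_toSet.isCompact).exists_infDist_eq_dist hZ' x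
    have h1 : 2 * r < Metric.infDist x (Z : Set UnitAddCircle) := by
      rw [hzd]; exact hx z (by exact_mod_cast hz)
    have h2 : 1 ≤ Metric.infDist x (Z : Set UnitAddCircle) / r - 1 := by
      rw [le_sub_iff_add_le, le_div_iff₀ hr]; linarith
    rw [max_eq_right (by linarith)]
    exact min_eq_left h2

theorem fourier_nsmul (k : ℤ) (n : ℕ) (x : UnitAddCircle) :
    (fourier k (n • x) : ℂ) = fourier (k * (n : ℤ)) x := by
  simp only [fourier_apply]
  rw [mul_smul, natCast_zsmul]

end StatAux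

open StatAux

/-- From the square-root cancellation hypothesis to the frequency of visits to a neighbourhood
of `Z`. -/
theorem stat_bound {p q : ℕ} {μ : Measure UnitAddCircle} [IsProbabilityMeasure μ]
    (H : ∀ k : ℤ, ∃ C θ : ℝ, θ < 1 ∧ SqrtCancel p q μ k C θ)
    (Z : Finset UnitAddCircle) {r : ℝ} (hr : 0 < r) (hZ : μ.real (nbh Z r)ᶜ ≤ 1 / 64) :
    ∃ C θ : ℝ, 0 ≤ C ∧ 0 ≤ θ ∧ θ < 1 ∧ ∀ (s : ℕ) (F : Finset (ℕ × ℕ)), 1 ≤ s → F.Nonempty →
      (∀ v ∈ F, v.1 < s) → ∃ B : Set UnitAddCircle, MeasurableSet B ∧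
        μ.real B ≤ C * (s : ℝ) ^ θ / F.card ∧
        ∀ x, x ∉ B → 8 * (outCount p q Z (2 * r) F x : ℝ) ≤ F.card := by
  classical
  have hZne : Z.Nonempty := by
    rw [Finset.nonempty_iff_ne_empty]
    rintro rfl
    simp [nbh] at hZ
    norm_num at hZ
  obtain ⟨g, hg0, hg1, hgZ, hgout⟩ := exists_cutoff Z hZne hr
  -- the integral of the cut-off function
  have hmeasN : MeasurableSet (nbh Z r) := by
    unfold nbh
    exact Finset.measurableSet_biUnion _ (fun z _ => Metric.isClosed_closedBall.measurableSet)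
  have hgint : ∫ x, g x ∂μ ≤ 1 / 64 := by
    have h1 : ∫ x, g x ∂μ ≤ ∫ x, (nbh Z r)ᶜ.indicator (fun _ => (1 : ℝ)) x ∂μ := by
      apply integral_mono
      · exact g.continuous.integrable_of_hasCompactSupport (HasCompactSupport.of_compactSpace _)
      · exact (integrable_const (1 : ℝ)).indicator hmeasN.compl
      · intro x
        by_cases hx : x ∈ nbh Z r
        · have : x ∉ (nbh Z r)ᶜ := by simpa using hx
          simp only [Set.indicator_of_notMem this, hgZ x hx, le_refl]
        · have : x ∈ (nbh Z r)ᶜ := hx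
          simp only [Set.indicator_of_mem this]
          exact hg1 x
    rw [integral_indicator_const (1 : ℝ) hmeasN.compl, smul_eq_mul, mul_one] at h1
    exact h1.trans hZ
  have hgint0 : 0 ≤ ∫ x, g x ∂μ := integral_nonneg hg0
  -- the complex version of g
  let gc : C(UnitAddCircle, ℂ) := ⟨fun x => (g x : ℂ), Complex.continuous_ofReal.comp g.continuous⟩
  have hgc : gc ∈ (Submodule.span ℂ (Set.range (@fourier 1))).topologicalClosure := by
    rw [span_fourier_closure_eq_top]
    trivial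
  have hcl : gc ∈ closure ((Submodule.span ℂ (Set.range (@fourier 1)) :
      Submodule ℂ C(UnitAddCircle, ℂ)) : Set C(UnitAddCircle, ℂ)) := hgc
  rw [Metric.mem_closure_iff] at hcl
  obtain ⟨P, hPmem, hPd⟩ := hcl (1 / 64) (by norm_num)
  have hPmem' : P ∈ Submodule.span ℂ (Set.range (@fourier 1)) := hPmem
  rw [Finsupp.mem_span_range_iff_exists_finsupp] at hPmem'
  obtain ⟨c, hc⟩ := hPmem'
  have hPx : ∀ x : UnitAddCircle, P x = ∑ k ∈ c.support, c k * fourier k x := by
    intro x
    rw [← hc, Finsupp.sum]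
    simp [ContinuousMap.sum_apply]
  have hPg : ∀ x : UnitAddCircle, ‖(g x : ℂ) - P x‖ ≤ 1 / 64 := by
    intro x
    have h1 := ContinuousMap.dist_apply_le_dist (f := gc) (g := P) x
    rw [dist_eq_norm] at h1
    exact h1.trans hPd.le
  -- the constants
  choose Ck θk hθk HS using H
  set A : ℝ := ∑ k ∈ c.support, ‖c k‖ with hA
  have hA0 : 0 ≤ A := Finset.sum_nonneg (fun k _ => norm_nonneg _)
  set τ : ℝ := 1 / (64 * (1 + A)) with hτdef
  have hτ : 0 < τ := by positivity
  obtain ⟨θ, hθ0, hθ1, hθS⟩ : ∃ θ : ℝ, 0 ≤ θ ∧ θ < 1 ∧ ∀ k ∈ c.support, θk k ≤ θ := by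
    have : ∀ S : Finset ℤ, ∃ θ : ℝ, 0 ≤ θ ∧ θ < 1 ∧ ∀ k ∈ S, θk k ≤ θ := by
      intro S
      induction S using Finset.induction_on with
      | empty => exact ⟨0, le_refl _, zero_lt_one, by simp⟩
      | insert a S ha ih =>
        obtain ⟨θ, h0, h1, h2⟩ := ih
        refine ⟨max θ (θk a), le_max_of_le_left h0, max_lt h1 (hθk a), ?_⟩
        intro k hk
        rcases Finset.mem_insert.1 hk with rfl | hk
        · exact le_max_right _ _
        · exact (h2 k hk).trans (le_max_left _ _)
    exact this c.support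
  refine ⟨∑ k ∈ c.support, |Ck k| / τ ^ 2, θ, ?_, hθ0, hθ1, ?_⟩
  · exact Finset.sum_nonneg (fun k _ => by positivity)
  intro s F hs hF hFs
  have hN : (0 : ℝ) < F.card := by exact_mod_cast hF.card_pos
  let Bk : ℤ → Set UnitAddCircle := fun k => {x | τ * F.card <
      ‖∑ v ∈ F, ((fourier (k * (nn p q v : ℤ)) x : ℂ) - coef μ k)‖}
  refine ⟨⋃ k ∈ c.support, Bk k, ?_, ?_, ?_⟩
  · refine Finset.measurableSet_biUnion _ (fun k _ => ?_)
    apply IsOpen.measurableSet
    apply isOpen_lt continuous_const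
    apply Continuous.norm
    apply continuous_finsetSum
    intro v _
    exact ((fourier (k * (nn p q v : ℤ))).continuous).sub continuous_const
  · have h1 : μ.real (⋃ k ∈ c.support, Bk k) ≤ ∑ k ∈ c.support, μ.real (Bk k) :=
      measureReal_biUnion_finset_le _ _
    refine h1.trans ?_
    rw [Finset.sum_mul, Finset.sum_div]
    apply Finset.sum_le_sum
    intro k hk
    exact cheb (HS k) hτ hs (hθS k hk) hF hFs
  · intro x hx
    simp only [Set.mem_iUnion, exists_prop, not_exists, not_and] at hx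
    have hxk : ∀ k ∈ c.support,
        ‖∑ v ∈ F, ((fourier (k * (nn p q v : ℤ)) x : ℂ) - coef μ k)‖ ≤ τ * F.card := by
      intro k hk
      have := hx k hk
      exact not_lt.1 this
    -- the integral of P
    have hPint : ∫ y, P y ∂μ = ∑ k ∈ c.support, c k * coef μ k := by
      have h1 : ∀ y : UnitAddCircle, P y = ∑ k ∈ c.support, c k * fourier k y := hPx
      simp_rw [h1]
      rw [integral_finsetSum]
      · apply Finset.sum_congr rfl
        intro k _
        rw [integral_const_mul]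
        rfl
      · intro k _
        apply Integrable.const_mul
        exact (fourier k).continuous.integrable_of_hasCompactSupport
          (HasCompactSupport.of_compactSpace _)
    have hPintn : ‖∫ y, P y ∂μ‖ ≤ 2 / 64 := by
      have hgi : Integrable (fun y => ((g y : ℝ) : ℂ)) μ :=
        gc.continuous.integrable_of_hasCompactSupport (HasCompactSupport.of_compactSpace _)
      have hPi : Integrable (fun y => P y) μ :=
        P.continuous.integrable_of_hasCompactSupport (HasCompactSupport.of_compactSpace _)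
      have h1 : ∫ y, P y ∂μ = ∫ y, ((g y : ℝ) : ℂ) ∂μ - ∫ y, (((g y : ℝ) : ℂ) - P y) ∂μ := by
        rw [integral_sub hgi hPi]; ring
      rw [h1]
      refine (norm_sub_le _ _).trans ?_
      have h2 : ‖∫ y, ((g y : ℝ) : ℂ) ∂μ‖ ≤ 1 / 64 := by
        rw [integral_complex_ofReal, Complex.norm_real, Real.norm_of_nonneg hgint0]
        exact hgint
      have h3 : ‖∫ y, (((g y : ℝ) : ℂ) - P y) ∂μ‖ ≤ 1 / 64 := by
        have := norm_integral_le_of_norm_le_const (μ := μ)
          (Filter.Eventually.of_forall (fun y => hPg y))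
        simpa using this
      linarith
    -- the sum of P
    have hsumP : ∑ v ∈ F, P (nn p q v • x) = (F.card : ℂ) * (∫ y, P y ∂μ) +
        ∑ k ∈ c.support, c k *
          ∑ v ∈ F, ((fourier (k * (nn p q v : ℤ)) x : ℂ) - coef μ k) := by
      rw [hPint]
      simp_rw [hPx, fourier_nsmul]
      rw [Finset.sum_comm]
      rw [Finset.mul_sum, ← Finset.sum_add_distrib]
      apply Finset.sum_congr rfl
      intro k _
      rw [Finset.sum_sub_distrib, Finset.sum_const, nsmul_eq_mul, ← Finset.mul_sum]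
      ring
    have hsumPn : ‖∑ v ∈ F, P (nn p q v • x)‖ ≤ 3 / 64 * F.card := by
      rw [hsumP]
      refine (norm_add_le _ _).trans ?_
      have h1 : ‖(F.card : ℂ) * (∫ y, P y ∂μ)‖ ≤ 2 / 64 * F.card := by
        rw [norm_mul, Complex.norm_natCast, mul_comm]
        exact mul_le_mul_of_nonneg_right hPintn hN.le
      have h2 : ‖∑ k ∈ c.support, c k *
          ∑ v ∈ F, ((fourier (k * (nn p q v : ℤ)) x : ℂ) - coef μ k)‖ ≤ 1 / 64 * F.card := by
        refine (norm_sum_le _ _).trans ?_
        have h3 : ∑ k ∈ c.support, ‖c k *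
            ∑ v ∈ F, ((fourier (k * (nn p q v : ℤ)) x : ℂ) - coef μ k)‖ ≤
            ∑ k ∈ c.support, ‖c k‖ * (τ * F.card) := by
          apply Finset.sum_le_sum
          intro k hk
          rw [norm_mul]
          exact mul_le_mul_of_nonneg_left (hxk k hk) (norm_nonneg _)
        rw [← Finset.sum_mul] at h3
        refine h3.trans ?_
        have h4 : A * τ ≤ 1 / 64 := by
          rw [hτdef, mul_one_div, div_le_div_iff₀ (by positivity) (by norm_num)]
          linarith
        calc A * (τ * F.card) = A * τ * F.card := by ring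
          _ ≤ 1 / 64 * F.card := mul_le_mul_of_nonneg_right h4 hN.le
      linarith
    -- the sum of g
    have hsumg : ∑ v ∈ F, g (nn p q v • x) ≤ 4 / 64 * F.card := by
      have h1 : ((∑ v ∈ F, g (nn p q v • x) : ℝ) : ℂ) =
          ∑ v ∈ F, P (nn p q v • x) +
            ∑ v ∈ F, ((g (nn p q v • x) : ℂ) - P (nn p q v • x)) := by
        rw [Finset.sum_sub_distrib]
        push_cast
        ring
      have h2 : ‖∑ v ∈ F, ((g (nn p q v • x) : ℂ) - P (nn p q v • x))‖ ≤ 1 / 64 * F.card := by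
        refine (norm_sum_le _ _).trans ?_
        have h3 : ∑ v ∈ F, ‖(g (nn p q v • x) : ℂ) - P (nn p q v • x)‖ ≤
            ∑ v ∈ F, (1 / 64 : ℝ) := Finset.sum_le_sum (fun v _ => hPg _)
        rw [Finset.sum_const, nsmul_eq_mul] at h3
        linarith
      have h4 : ‖((∑ v ∈ F, g (nn p q v • x) : ℝ) : ℂ)‖ ≤ 4 / 64 * F.card := by
        rw [h1]
        refine (norm_add_le _ _).trans ?_
        linarith
      rw [Complex.norm_real] at h4
      exact (le_abs_self _).trans h4
    -- conclusion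
    have hcount : (outCount p q Z (2 * r) F x : ℝ) ≤ ∑ v ∈ F, g (nn p q v • x) := by
      unfold outCount
      have h1 : ((F.filter (fun v => nn p q v • x ∉ nbh Z (2 * r))).card : ℝ) =
          ∑ v ∈ F.filter (fun v => nn p q v • x ∉ nbh Z (2 * r)), g (nn p q v • x) := by
        rw [Finset.sum_congr rfl (fun v hv => hgout _ (Finset.mem_filter.1 hv).2)]
        simp
      refine le_trans (le_of_eq ?_) (le_trans (le_of_eq h1) ?_)
      · congr
      · exact Finset.sum_le_sum_of_subset_of_nonneg (Finset.filter_subset _ _)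
          (fun v _ _ => hg0 _)
    linarith

end Pool.Agent.H.MP_96e181_an.Blk
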