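import Mathlib
import Pool.Agent.H.MP_96e181_an.blk.Defs

set_option autoImplicit false

open MeasureTheory

namespace Pool.Agent.H.MP_96e181_an.Blk

/-! ### Digits -/

/-- The representative in `[0, 1)`. -/
noncomputable def zlift (x : UnitAddCircle) : ℝ := (AddCircle.equivIco (1 : ℝ) 0 x : ℝ)

theorem zlift_coe (x : UnitAddCircle) : ((zlift x : ℝ) : UnitAddCircle) = x :=
  AddCircle.coe_equivIco

theorem zlift_nonneg (x : UnitAddCircle) : 0 ≤ zlift x := (AddCircle.equivIco (1 : ℝ) 0 x).2.1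

theorem zlift_lt_one (x : UnitAddCircle) : zlift x < 1 := by
  have := (AddCircle.equivIco (1 : ℝ) 0 x).2.2
  simpa [zlift] using this

theorem zlift_of_coe {x : ℝ} (h0 : 0 ≤ x) (h1 : x < 1) : zlift (x : UnitAddCircle) = x := by
  have : (AddCircle.equivIco (1 : ℝ) 0 (x : UnitAddCircle)) = ⟨x, ⟨h0, by simpa using h1⟩⟩ := by
    rw [← Equiv.eq_symm_apply]
    rfl
  simp [zlift, this]

/-- The first digit in base `p`. -/
noncomputable def zdig (p : ℕ) (x : UnitAddCircle) : ℕ := ⌊(p : ℝ) * zlift x⌋₊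

theorem zdig_lt {p : ℕ} (hp : 2 ≤ p) (x : UnitAddCircle) : zdig p x < p := by
  unfold zdig
  rw [Nat.floor_lt (mul_nonneg (Nat.cast_nonneg p) (zlift_nonneg x))]
  have hp' : (0 : ℝ) < p := by exact_mod_cast (by omega : 0 < p)
  have := zlift_lt_one x
  nlinarith

theorem zlift_smul (p : ℕ) (x : UnitAddCircle) :
    zlift (p • x) = (p : ℝ) * zlift x - zdig p x := by
  have h0 : (0 : ℝ) ≤ (p : ℝ) * zlift x := mul_nonneg (Nat.cast_nonneg p) (zlift_nonneg x)
  have h1 := Nat.floor_le h0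
  have h2 := Nat.lt_floor_add_one ((p : ℝ) * zlift x)
  have h3 : (((p : ℝ) * zlift x - zdig p x : ℝ) : UnitAddCircle) = p • x := by
    have e1 : (((zdig p x : ℕ) : ℝ) : UnitAddCircle) = 0 := by
      have : ((zdig p x : ℕ) : ℝ) = (zdig p x) • (1 : ℝ) := by simp
      rw [this, AddCircle.coe_nsmul, AddCircle.coe_period, smul_zero]
    rw [AddCircle.coe_sub, e1, sub_zero]
    have : (p : ℝ) * zlift x = p • zlift x := by simp
    rw [this, AddCircle.coe_nsmul, zlift_coe]
  rw [← h3]
  apply zlift_of_coe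
  · unfold zdig; linarith
  · unfold zdig; linarith

/-- (D1): equal digits. -/
theorem zlift_close {p : ℕ} (hp : 2 ≤ p) (N : ℕ) (u v : UnitAddCircle) (K : ℕ) :
    K ≤ N → (∀ i, N - K ≤ i → i < N → zdig p (p ^ i • u) = zdig p (p ^ i • v)) →
    |zlift (p ^ (N - K) • u) - zlift (p ^ (N - K) • v)| < 1 / (p : ℝ) ^ K := by
  have hp' : (0 : ℝ) < p := by exact_mod_cast (by omega : 0 < p)
  induction K with
  | zero =>
    intro _ _
    have a1 := zlift_nonneg (p ^ (N - 0) • u)
    have a2 := zlift_lt_one (p ^ (N - 0) • u)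
    have a3 := zlift_nonneg (p ^ (N - 0) • v)
    have a4 := zlift_lt_one (p ^ (N - 0) • v)
    rw [pow_zero, div_one, abs_lt]
    constructor <;> linarith
  | succ K ih =>
    intro hK h
    have ih' := ih (by omega) (fun i hi hi' => h i (by omega) hi')
    have e : N - K = (N - (K + 1)) + 1 := by omega
    have hd := h (N - (K + 1)) le_rfl (by omega)
    have f : ∀ w : UnitAddCircle, zlift (p ^ (N - K) • w)
        = (p : ℝ) * zlift (p ^ (N - (K + 1)) • w) - zdig p (p ^ (N - (K + 1)) • w) := by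
      intro w
      rw [e, pow_succ', mul_smul, zlift_smul]
    rw [f u, f v, hd] at ih'
    have g : (p : ℝ) * zlift (p ^ (N - (K + 1)) • u) - zdig p (p ^ (N - (K + 1)) • v) -
        ((p : ℝ) * zlift (p ^ (N - (K + 1)) • v) - zdig p (p ^ (N - (K + 1)) • v))
        = (p : ℝ) * (zlift (p ^ (N - (K + 1)) • u) - zlift (p ^ (N - (K + 1)) • v)) := by ring
    rw [g, abs_mul, abs_of_pos hp'] at ih'
    have : (1 : ℝ) / (p : ℝ) ^ (K + 1) = (1 / (p : ℝ) ^ K) / p := by
      rw [pow_succ]; field_simp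
    rw [this, lt_div_iff₀ hp']
    linarith [mul_comm (p : ℝ) |zlift (p ^ (N - (K + 1)) • u) - zlift (p ^ (N - (K + 1)) • v)|]

theorem norm_le_zabs (u v : UnitAddCircle) : ‖u - v‖ ≤ |zlift u - zlift v| := by
  have : u - v = ((zlift u - zlift v : ℝ) : UnitAddCircle) := by
    rw [AddCircle.coe_sub, zlift_coe, zlift_coe]
  rw [this, UnitAddCircle.norm_eq]
  have := round_le (zlift u - zlift v) 0
  simpa using this

/-- (D2): two points whose first digits differ while their images under `x ↦ p x` are close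
are not close. -/
theorem norm_ge_of_zdig_ne {p : ℕ} (hp : 2 ≤ p) (u v : UnitAddCircle)
    (hne : zdig p u ≠ zdig p v) :
    (1 - |zlift (p • u) - zlift (p • v)|) / p ≤ ‖u - v‖ := by
  have hp' : (0 : ℝ) < p := by exact_mod_cast (by omega : 0 < p)
  have h1 : u - v = ((zlift u - zlift v : ℝ) : UnitAddCircle) := by
    rw [AddCircle.coe_sub, zlift_coe, zlift_coe]
  have h2 := zlift_smul p u
  have h3 := zlift_smul p v
  rw [h1, UnitAddCircle.norm_eq]
  set k : ℤ := round (zlift u - zlift v) with hk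
  set m : ℤ := (zdig p u : ℤ) - (zdig p v : ℤ) - (p : ℤ) * k with hm
  have hm0 : m ≠ 0 := by
    intro h0
    have hu := zdig_lt hp u
    have hv := zdig_lt hp v
    have : (zdig p u : ℤ) - zdig p v = (p : ℤ) * k := by linarith
    have hk0 : k = 0 := by
      by_contra hk0
      have : 1 ≤ |k| := Int.one_le_abs hk0
      have h4 : (p : ℤ) ≤ |(p : ℤ) * k| := by
        rw [abs_mul, Nat.abs_cast]
        nlinarith
      have h5 : |(zdig p u : ℤ) - zdig p v| < p := by
        rw [abs_lt]; constructor <;> omega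
      rw [‹(zdig p u : ℤ) - zdig p v = (p : ℤ) * k›] at h5
      omega
    rw [hk0] at this
    apply hne
    omega
  have hm1 : (1 : ℝ) ≤ |(m : ℝ)| := by
    have := Int.one_le_abs hm0
    exact_mod_cast this
  have h4 : (p : ℝ) * (zlift u - zlift v - k) = m + (zlift (p • u) - zlift (p • v)) := by
    rw [h2, h3, hm]; push_cast; ring
  have h5 : (1 : ℝ) - |zlift (p • u) - zlift (p • v)| ≤ (p : ℝ) * |zlift u - zlift v - k| := by
    have e : (p : ℝ) * |zlift u - zlift v - k| = |(p : ℝ) * (zlift u - zlift v - k)| := by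
      rw [abs_mul, abs_of_pos hp']
    rw [e, h4]
    have := abs_sub_abs_le_abs_add (m : ℝ) (zlift (p • u) - zlift (p • v))
    linarith
  rw [div_le_iff₀ hp']
  linarith [mul_comm (p : ℝ) |zlift u - zlift v - k|]

/-! ### Codes -/

/-- The number of words with at most `m` symbols different from `none`. -/
theorem card_codes (p N m : ℕ) (hp : 2 ≤ p) (S : Finset (Fin N → Option (Fin p)))
    (hS : ∀ f ∈ S, (Finset.univ.filter (fun i => f i ≠ none)).card ≤ m) :
    (S.card : ℝ) ≤ (16 * p : ℝ) ^ m * (17 / 16 : ℝ) ^ N := by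
  classical
  have hp' : (0 : ℝ) < p := by exact_mod_cast (by omega : 0 < p)
  have hp2 : (2 : ℝ) ≤ p := by exact_mod_cast hp
  set t : ℝ := 1 / (16 * p) with ht
  have ht0 : 0 < t := by positivity
  have ht1 : t ≤ 1 := by
    rw [ht, div_le_one (by positivity)]; nlinarith
  set w : Option (Fin p) → ℝ := fun o => if o ≠ none then t else 1 with hw
  have h1 : (∑ o : Option (Fin p), w o) = 17 / 16 := by
    rw [Fintype.sum_option]
    simp only [hw, ne_eq, not_true_eq_false, if_false, reduceCtorEq, not_false_eq_true, if_true,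
      Finset.sum_const, Finset.card_univ, Fintype.card_fin, nsmul_eq_mul]
    rw [ht]; field_simp; norm_num
  have h2 : (∑ f : Fin N → Option (Fin p), ∏ i, w (f i)) = (17 / 16 : ℝ) ^ N := by
    rw [← h1, Fintype.sum_pow]
  have hw0 : ∀ o, 0 ≤ w o := by
    intro o; simp only [hw]; split_ifs <;> linarith
  have h3 : ∀ f ∈ S, t ^ m ≤ ∏ i, w (f i) := by
    intro f hf
    simp only [hw]
    rw [Finset.prod_ite, Finset.prod_const, Finset.prod_const_one, mul_one]
    exact pow_le_pow_of_le_one ht0.le ht1 (hS f hf)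
  have h4 : (S.card : ℝ) * t ^ m ≤ (17 / 16 : ℝ) ^ N := by
    rw [← h2]
    calc (S.card : ℝ) * t ^ m = ∑ f ∈ S, t ^ m := by rw [Finset.sum_const, nsmul_eq_mul]
      _ ≤ ∑ f ∈ S, ∏ i, w (f i) := Finset.sum_le_sum h3
      _ ≤ ∑ f : Fin N → Option (Fin p), ∏ i, w (f i) :=
        Finset.sum_le_sum_of_subset_of_nonneg (Finset.subset_univ S)
          (fun f _ _ => Finset.prod_nonneg (fun i _ => hw0 (f i)))
  have h5 : (16 * p : ℝ) ^ m * t ^ m = 1 := by
    rw [← mul_pow, ht, mul_one_div_cancel (by positivity), one_pow]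
  calc (S.card : ℝ) = (16 * p : ℝ) ^ m * ((S.card : ℝ) * t ^ m) := by
        rw [mul_left_comm, h5, mul_one]
    _ ≤ (16 * p : ℝ) ^ m * (17 / 16 : ℝ) ^ N := by
        apply mul_le_mul_of_nonneg_left h4; positivity

/-- At place `n` no information is needed for the point `u`. -/
def zgood (p l K₁ N : ℕ) (B : ℕ → Set UnitAddCircle) (n : ℕ) (u : UnitAddCircle) : Prop :=
  l ≤ n + 1 ∧ n + 1 + K₁ ≤ N ∧ p ^ (n + 1 - l) • u ∉ B (N - 1 - n)

theorem digits_eq {p l K₁ N : ℕ} (hp : 2 ≤ p) (hl : 1 ≤ l) (hK₁ : 2 ≤ K₁)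
    (B : ℕ → Set UnitAddCircle)
    (hs : ∀ K, K₁ ≤ K → ∀ X, X ∉ B K → ∀ Y, Y ∉ B K → ‖p ^ l • (X - Y)‖ ≤ 1 / (p : ℝ) ^ K →
          ‖p ^ (l - 1) • (X - Y)‖ ≤ 1 / (p : ℝ) ^ (K + 1)) (u v : UnitAddCircle)
    (h : ∀ n, n < N → (zgood p l K₁ N B n u ∧ zgood p l K₁ N B n v) ∨
      zdig p (p ^ n • u) = zdig p (p ^ n • v)) (j : ℕ) :
    j ≤ N → ∀ i, N - j ≤ i → i < N → zdig p (p ^ i • u) = zdig p (p ^ i • v) := by
  have hp' : (0 : ℝ) < p := by exact_mod_cast (by omega : 0 < p)
  have hp2 : (2 : ℝ) ≤ p := by exact_mod_cast hp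
  induction j with
  | zero => intro _ i hi hi'; omega
  | succ j ih =>
    intro hj i hi hi'
    have ih' := ih (by omega)
    by_cases hij : N - j ≤ i
    · exact ih' i hij hi'
    have hi2 : i = N - (j + 1) := by omega
    rcases h i hi' with ⟨hu, hv⟩ | hd
    swap
    · exact hd
    by_contra hne
    obtain ⟨g1, g2, g3⟩ := hu
    obtain ⟨-, -, g4⟩ := hv
    have hj' : j = N - 1 - i := by omega
    have hjK : K₁ ≤ j := by omega
    rw [← hj'] at g3 g4
    have hclose := zlift_close hp N u v j (by omega) ih'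
    have e1 : N - j = i + 1 := by omega
    rw [e1] at hclose
    have hn := norm_le_zabs (p ^ (i + 1) • u) (p ^ (i + 1) • v)
    have e2 : p ^ l • (p ^ (i + 1 - l) • u - p ^ (i + 1 - l) • v)
        = p ^ (i + 1) • u - p ^ (i + 1) • v := by
      rw [smul_sub, smul_smul, smul_smul, ← pow_add]
      congr 3 <;> omega
    have e3 : p ^ (l - 1) • (p ^ (i + 1 - l) • u - p ^ (i + 1 - l) • v)
        = p ^ i • u - p ^ i • v := by
      rw [smul_sub, smul_smul, smul_smul, ← pow_add]
      congr 3 <;> omega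
    have hstep := hs j hjK _ g3 _ g4 (by rw [e2]; linarith)
    rw [e3] at hstep
    have hge := norm_ge_of_zdig_ne hp (p ^ i • u) (p ^ i • v) hne
    rw [smul_smul, smul_smul, ← pow_succ'] at hge
    have h1 : (1 - |zlift (p ^ (i + 1) • u) - zlift (p ^ (i + 1) • v)|) / p
        ≤ 1 / (p : ℝ) ^ (j + 1) := hge.trans hstep
    have h2 : (1 : ℝ) / (p : ℝ) ^ (j + 1) = (1 / (p : ℝ) ^ j) / p := by
      rw [pow_succ]; field_simp
    rw [h2] at h1
    have h3 := (div_le_div_iff_of_pos_right hp').mp h1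
    have h4 : (1 : ℝ) / (p : ℝ) ^ j ≤ 1 / 2 := by
      apply one_div_le_one_div_of_le (by norm_num)
      calc (2 : ℝ) ≤ p := hp2
        _ = (p : ℝ) ^ 1 := (pow_one _).symm
        _ ≤ (p : ℝ) ^ j := pow_le_pow_right₀ (by linarith) (by omega)
    linarith

theorem mp_pow {p : ℕ} {μ : Measure UnitAddCircle}
    (hμp : MeasurePreserving (fun x : UnitAddCircle => p • x) μ μ) (k : ℕ) :
    MeasurePreserving (fun x : UnitAddCircle => p ^ k • x) μ μ := by
  have := hμp.iterate k
  have e : (fun x : UnitAddCircle => p • x)^[k] = fun x : UnitAddCircle => p ^ k • x :=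
    smul_iterate p k
  rwa [e] at this

open Classical in
/-- The Markov bound for the number of bad places. -/
theorem bad_places {p : ℕ} {μ : Measure UnitAddCircle} [IsProbabilityMeasure μ]
    (hμp : MeasurePreserving (fun x : UnitAddCircle => p • x) μ μ)
    (S : Finset ℕ) (a : ℕ → ℕ) (B : ℕ → Set UnitAddCircle) (b : ℕ → ℕ) {η : ℝ}
    (hBm : ∀ n ∈ S, MeasurableSet (B (b n))) (hBμ : ∀ n ∈ S, μ.real (B (b n)) ≤ η)
    (M : ℕ) (hM : 1 ≤ M) :
    μ.real {u : UnitAddCircle | M < (S.filter (fun n => p ^ (a n) • u ∈ B (b n))).card}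
      ≤ S.card * η / M := by
  have hM' : (0 : ℝ) < M := by exact_mod_cast hM
  set f : UnitAddCircle → ℝ := fun u =>
    ∑ n ∈ S, Set.indicator ((fun x : UnitAddCircle => p ^ (a n) • x) ⁻¹' (B (b n)))
      (fun _ => (1 : ℝ)) u with hf
  have hmeas : ∀ n ∈ S,
      MeasurableSet ((fun x : UnitAddCircle => p ^ (a n) • x) ⁻¹' (B (b n))) :=
    fun n hn => (mp_pow hμp (a n)).measurable (hBm n hn)
  have hint : ∀ n ∈ S, Integrable
      (Set.indicator ((fun x : UnitAddCircle => p ^ (a n) • x) ⁻¹' (B (b n)))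
      (fun _ => (1 : ℝ))) μ := fun n hn => (integrable_const (1 : ℝ)).indicator (hmeas n hn)
  have hfint : Integrable f μ := by
    rw [hf]; exact integrable_finsetSum S hint
  have hf0 : ∀ u, 0 ≤ f u := fun u =>
    Finset.sum_nonneg (fun n _ => Set.indicator_nonneg (fun _ _ => zero_le_one) u)
  have hI : ∫ u, f u ∂μ ≤ S.card * η := by
    rw [hf, integral_finsetSum S hint]
    calc ∑ n ∈ S, ∫ u, Set.indicator ((fun x : UnitAddCircle => p ^ (a n) • x) ⁻¹' (B (b n)))
          (fun _ => (1 : ℝ)) u ∂μ ≤ ∑ n ∈ S, η := by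
          apply Finset.sum_le_sum
          intro n hn
          rw [integral_indicator (hmeas n hn)]
          simp only [integral_const, smul_eq_mul, mul_one, measureReal_restrict_apply_univ]
          have := (mp_pow hμp (a n)).measureReal_preimage (hBm n hn).nullMeasurableSet
          rw [this]
          exact hBμ n hn
      _ = S.card * η := by rw [Finset.sum_const, nsmul_eq_mul]
  have hmk := mul_meas_ge_le_integral_of_nonneg (μ := μ) (Filter.Eventually.of_forall hf0) hfint M
  have hsub : {u : UnitAddCircle | M < (S.filter (fun n => p ^ (a n) • u ∈ B (b n))).card}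
      ⊆ {u | (M : ℝ) ≤ f u} := by
    intro u hu
    simp only [Set.mem_ofPred_eq] at hu ⊢
    have : f u = ((S.filter (fun n => p ^ (a n) • u ∈ B (b n))).card : ℝ) := by
      rw [hf, Finset.card_filter]
      push_cast
      apply Finset.sum_congr rfl
      intro n _
      simp only [Set.indicator, Set.mem_preimage]
    rw [this]
    exact_mod_cast hu.le
  have h1 : μ.real {u : UnitAddCircle |
      M < (S.filter (fun n => p ^ (a n) • u ∈ B (b n))).card} ≤ μ.real {u | (M : ℝ) ≤ f u} :=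
    measureReal_mono hsub
  rw [le_div_iff₀ hM']
  calc _ ≤ μ.real {u | (M : ℝ) ≤ f u} * M := mul_le_mul_of_nonneg_right h1 hM'.le
    _ = M * μ.real {u | (M : ℝ) ≤ f u} := mul_comm _ _
    _ ≤ _ := hmk.trans hI

open Classical in
/-- Zero entropy in terms of covering numbers. -/
theorem cover_small {p : ℕ} (hp : 2 ≤ p) {μ : Measure UnitAddCircle} [IsProbabilityMeasure μ]
    (hμp : MeasurePreserving (fun x : UnitAddCircle => p • x) μ μ)
    {l : ℕ} (hl : 1 ≤ l)
    (hsep : ∀ η : ℝ, 0 < η → ∃ K₀ : ℕ, ∀ K, K₀ ≤ K →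
      ∃ B : Set UnitAddCircle, MeasurableSet B ∧ μ.real B ≤ η ∧
        ∀ X, X ∉ B → ∀ Y, Y ∉ B → ‖p ^ l • (X - Y)‖ ≤ 1 / (p : ℝ) ^ K →
          ‖p ^ (l - 1) • (X - Y)‖ ≤ 1 / (p : ℝ) ^ (K + 1))
    {ε : ℝ} (hε : 0 < ε) :
    ∃ (Z : Finset UnitAddCircle) (r : ℝ), 0 < r ∧ (Z.card : ℝ) ^ 2 * r ≤ ε ∧
      μ.real (nbh Z r)ᶜ ≤ 1 / 64 := by
  have hp' : (0 : ℝ) < p := by exact_mod_cast (by omega : 0 < p)
  have hp2 : (2 : ℝ) ≤ p := by exact_mod_cast hp
  obtain ⟨J₀, hJ₀⟩ := pow_unbounded_of_one_lt ((16 * p : ℝ) ^ 2) (by norm_num : (1 : ℝ) < 5 / 4)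
  set J : ℕ := J₀ + 1 with hJdef
  have hJ : (16 * p : ℝ) ^ 2 ≤ (5 / 4 : ℝ) ^ J := by
    have : (5 / 4 : ℝ) ^ J₀ ≤ (5 / 4 : ℝ) ^ J :=
      pow_le_pow_right₀ (by norm_num) (by omega)
    linarith
  have hJ1 : 1 ≤ J := by omega
  have hJ' : (0 : ℝ) < J := by exact_mod_cast (by omega : 0 < J)
  obtain ⟨K₀, hK⟩ := hsep (1 / (64 * J)) (by positivity)
  choose! B hBm hBμ hBs using hK
  set K₁ : ℕ := max K₀ 2 with hK₁
  have hK₁2 : 2 ≤ K₁ := le_max_right _ _
  have hK₁0 : K₀ ≤ K₁ := le_max_left _ _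
  set A : ℝ := (16 * p : ℝ) ^ (2 * (l + K₁)) with hA
  have hA0 : 0 < A := by positivity
  obtain ⟨M₀, hM₀⟩ := exists_pow_lt_of_lt_one (div_pos hε hA0)
    (pow_lt_one₀ (by norm_num : (0 : ℝ) ≤ 1445 / 2048) (by norm_num) (by omega : J ≠ 0))
  set M : ℕ := M₀ + 1 with hM
  have hM1 : 1 ≤ M := by omega
  have hM' : (0 : ℝ) < M := by exact_mod_cast (by omega : 0 < M)
  have hMε : A * ((1445 / 2048 : ℝ) ^ J) ^ M ≤ ε := by
    have h1 : ((1445 / 2048 : ℝ) ^ J) ^ M ≤ ((1445 / 2048 : ℝ) ^ J) ^ M₀ :=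
      pow_le_pow_of_le_one (by positivity)
        (pow_le_one₀ (by norm_num) (by norm_num)) (by omega)
    have h2 := (lt_div_iff₀ hA0).mp hM₀
    nlinarith
  set N : ℕ := J * M with hN
  -- the code
  set code : UnitAddCircle → (Fin N → Option (Fin p)) := fun u n =>
    if zgood p l K₁ N B n u then none else some ⟨zdig p (p ^ (n : ℕ) • u), zdig_lt hp _⟩
    with hcode
  have hcode_eq : ∀ u v, code u = code v → ‖u - v‖ ≤ 1 / (p : ℝ) ^ N := by
    intro u v huv
    have hd := digits_eq hp hl hK₁2 B (fun K hK => hBs K (hK₁0.trans hK)) u v (N := N) (by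
      intro n hn
      have := congrFun huv ⟨n, hn⟩
      simp only [hcode] at this
      by_cases g1 : zgood p l K₁ N B n u
      · by_cases g2 : zgood p l K₁ N B n v
        · exact Or.inl ⟨g1, g2⟩
        · rw [if_pos g1, if_neg g2] at this
          exact absurd this (by simp)
      · by_cases g2 : zgood p l K₁ N B n v
        · rw [if_neg g1, if_pos g2] at this
          exact absurd this (by simp)
        · rw [if_neg g1, if_neg g2] at this
          right
          simpa using this) N le_rfl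
    have hc := zlift_close hp N u v N le_rfl hd
    rw [Nat.sub_self, pow_zero, one_smul, one_smul] at hc
    exact (norm_le_zabs u v).trans hc.le
  set S : Finset (Fin N → Option (Fin p)) := Finset.univ.filter (fun f =>
    (Finset.univ.filter (fun i => f i ≠ none)).card ≤ M + (l + K₁) ∧ ∃ u, code u = f) with hS
  set rep : (Fin N → Option (Fin p)) → UnitAddCircle := fun f =>
    if h : ∃ u, code u = f then h.choose else 0 with hrep
  have hrep' : ∀ f ∈ S, code (rep f) = f := by
    intro f hf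
    have h := (Finset.mem_filter.mp hf).2.2
    simp only [hrep]
    rw [dif_pos h]
    exact h.choose_spec
  set Z : Finset UnitAddCircle := S.image rep with hZ
  refine ⟨Z, 1 / (p : ℝ) ^ N, by positivity, ?_, ?_⟩
  · have hZS : (Z.card : ℝ) ≤ (16 * p : ℝ) ^ (M + (l + K₁)) * (17 / 16 : ℝ) ^ N := by
      refine le_trans (by exact_mod_cast Finset.card_image_le) (card_codes p N _ hp S ?_)
      intro f hf
      exact (Finset.mem_filter.mp hf).2.1
    have h1 : (Z.card : ℝ) ^ 2 ≤ ((16 * p : ℝ) ^ (M + (l + K₁)) * (17 / 16 : ℝ) ^ N) ^ 2 :=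
      pow_le_pow_left₀ (Nat.cast_nonneg _) hZS 2
    have h2 : ((16 * p : ℝ) ^ (M + (l + K₁)) * (17 / 16 : ℝ) ^ N) ^ 2
        = A * ((16 * p : ℝ) ^ 2) ^ M * (289 / 256 : ℝ) ^ N := by
      rw [hA, mul_pow, ← pow_mul, ← pow_mul, ← pow_mul]
      have e1 : (17 / 16 : ℝ) ^ (N * 2) = (289 / 256 : ℝ) ^ N := by
        rw [mul_comm, pow_mul]; norm_num
      rw [e1]
      have e2 : (16 * p : ℝ) ^ ((M + (l + K₁)) * 2)
          = (16 * p : ℝ) ^ (2 * (l + K₁)) * (16 * p : ℝ) ^ (2 * M) := by
        rw [← pow_add]; congr 1; ring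
      rw [e2]
    have h3 : ((16 * p : ℝ) ^ 2) ^ M ≤ (5 / 4 : ℝ) ^ N := by
      rw [hN, pow_mul]
      exact pow_le_pow_left₀ (by positivity) hJ M
    have h4 : (1 : ℝ) / (p : ℝ) ^ N ≤ (1 / 2 : ℝ) ^ N := by
      rw [one_div_pow]
      apply one_div_le_one_div_of_le (by positivity)
      exact pow_le_pow_left₀ (by norm_num) hp2 N
    calc (Z.card : ℝ) ^ 2 * (1 / (p : ℝ) ^ N)
        ≤ (A * ((16 * p : ℝ) ^ 2) ^ M * (289 / 256 : ℝ) ^ N) * (1 / (p : ℝ) ^ N) := by
          rw [← h2]; exact mul_le_mul_of_nonneg_right h1 (by positivity)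
      _ ≤ (A * (5 / 4 : ℝ) ^ N * (289 / 256 : ℝ) ^ N) * (1 / 2 : ℝ) ^ N := by
          apply mul_le_mul _ h4 (by positivity) (by positivity)
          apply mul_le_mul_of_nonneg_right _ (by positivity)
          exact mul_le_mul_of_nonneg_left h3 hA0.le
      _ = A * ((1445 / 2048 : ℝ) ^ J) ^ M := by
          rw [← pow_mul, ← hN, mul_assoc, mul_assoc, ← mul_pow, ← mul_pow]
          norm_num
      _ ≤ ε := hMε
  · -- the measure of the complement
    set T : Finset ℕ := (Finset.range N).filter (fun n => l ≤ n + 1 ∧ n + 1 + K₁ ≤ N) with hT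
    have hb := bad_places hμp T (fun n => n + 1 - l) B (fun n => N - 1 - n)
      (η := 1 / (64 * J))
      (fun n hn => hBm _ (by
        have := (Finset.mem_filter.mp hn).2.2
        omega))
      (fun n hn => hBμ _ (by
        have := (Finset.mem_filter.mp hn).2.2
        omega)) M hM1
    have hTc : (T.card : ℝ) ≤ J * M := by
      have : T.card ≤ N := by
        calc T.card ≤ (Finset.range N).card := Finset.card_filter_le _ _
          _ = N := Finset.card_range N
      calc (T.card : ℝ) ≤ (N : ℝ) := by exact_mod_cast this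
        _ = J * M := by rw [hN]; push_cast; ring
    have hb2 : (T.card : ℝ) * (1 / (64 * J)) / M ≤ 1 / 64 := by
      rw [div_le_iff₀ hM']
      calc (T.card : ℝ) * (1 / (64 * J)) ≤ (J * M) * (1 / (64 * J)) :=
            mul_le_mul_of_nonneg_right hTc (by positivity)
        _ = 1 / 64 * M := by field_simp
    refine le_trans (measureReal_mono ?_) (hb.trans hb2)
    intro u hu
    simp only [Set.mem_ofPred_eq]
    by_contra hcon
    apply hu
    push Not at hcon
    have hcard : (Finset.univ.filter (fun i => code u i ≠ none)).card ≤ M + (l + K₁) := by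
      have h1 : (Finset.univ.filter (fun i => code u i ≠ none)).card ≤
          ((Finset.range l ∪ Finset.Ico (N - K₁) N) ∪
            T.filter (fun n => p ^ (n + 1 - l) • u ∈ B (N - 1 - n))).card := by
        apply Finset.card_le_card_of_injOn (fun i : Fin N => (i : ℕ))
        · intro i hi
          have hi' := (Finset.mem_filter.mp hi).2
          simp only [hcode] at hi'
          have hng : ¬ zgood p l K₁ N B i u := by
            intro hg
            rw [if_pos hg] at hi'
            exact hi' rfl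
          simp only [Finset.coe_union, Set.mem_union, Finset.mem_coe, Finset.mem_range,
            Finset.mem_Ico, Finset.mem_filter, hT]
          have hiN := i.2
          by_cases c1 : l ≤ (i : ℕ) + 1
          · by_cases c2 : (i : ℕ) + 1 + K₁ ≤ N
            · right
              refine ⟨⟨hiN, c1, c2⟩, ?_⟩
              by_contra c3
              exact hng ⟨c1, c2, c3⟩
            · left; right; omega
          · left; left; omega
        · intro i _ j _ hij
          exact Fin.ext hij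
      refine h1.trans ((Finset.card_union_le _ _).trans ?_)
      have h2 := Finset.card_union_le (Finset.range l) (Finset.Ico (N - K₁) N)
      rw [Finset.card_range, Nat.card_Ico] at h2
      omega
    have hmem : code u ∈ S := Finset.mem_filter.mpr ⟨Finset.mem_univ _, hcard, u, rfl⟩
    simp only [nbh, Set.mem_iUnion]
    refine ⟨rep (code u), Finset.mem_image_of_mem rep hmem, ?_⟩
    rw [Metric.mem_closedBall, dist_eq_norm]
    exact hcode_eq u _ (hrep' _ hmem).symm

end Pool.Agent.H.MP_96e181_an.Blk
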