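import Mathlib
import Pool.Agent.H.MP_96e181_an.blk.Defs
import Pool.Agent.H.MP_96e181_an.blk.Block
import Pool.Agent.H.MP_96e181_an.blk.Stat
import Pool.Agent.H.MP_96e181_an.blk.Sep
import Pool.Agent.H.MP_96e181_an.blk.Zero
import Pool.Agent.H.MP_96e181_an.blk.Chain
import Pool.Agent.H.MP_96e181_an.blk.Leb

set_option autoImplicit false

open MeasureTheory Filter Topology

namespace Pool.Agent.H.MP_96e181_an.Blk

/-! ### numerical lemmas -/

theorem pow_le_of_div {p t : ℕ} : p ^ (2 * (t / (4 * p))) ≤ 2 ^ (t / 2) := by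
  have h1 : p ≤ 2 ^ p := Nat.lt_two_pow_self.le
  calc p ^ (2 * (t / (4 * p))) ≤ (2 ^ p) ^ (2 * (t / (4 * p))) := Nat.pow_le_pow_left h1 _
    _ = 2 ^ (p * (2 * (t / (4 * p)))) := by rw [← pow_mul]
    _ ≤ 2 ^ (t / 2) := by
        apply Nat.pow_le_pow_right (by norm_num)
        rw [Nat.le_div_iff_mul_le (by norm_num)]
        calc p * (2 * (t / (4 * p))) * 2 = (4 * p) * (t / (4 * p)) := by ring
          _ ≤ t := Nat.mul_div_le t (4 * p)

theorem pow_le_of_div' {q t : ℕ} :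
    q ^ (2 ^ (t + 1) / (2 * q)) ≤ 2 ^ (2 ^ t) := by
  have h1 : q ≤ 2 ^ q := Nat.lt_two_pow_self.le
  calc q ^ (2 ^ (t + 1) / (2 * q)) ≤ (2 ^ q) ^ (2 ^ (t + 1) / (2 * q)) :=
        Nat.pow_le_pow_left h1 _
    _ = 2 ^ (q * (2 ^ (t + 1) / (2 * q))) := by rw [← pow_mul]
    _ ≤ 2 ^ (2 ^ t) := by
        apply Nat.pow_le_pow_right (by norm_num)
        have h2 := Nat.mul_div_le (2 ^ (t + 1)) (2 * q)
        rw [pow_succ] at h2 ⊢
        nlinarith

theorem tail_small {A β : ℝ} (hβ : 1 < β) :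
    ∃ t₀ : ℕ, ∀ t₁, t₀ ≤ t₁ → ∀ T, ∑ t ∈ Finset.Ico t₁ T, A * (t : ℝ) ^ (-β) ≤ 1 / 2 := by
  have hs : Summable (fun t : ℕ => A * (t : ℝ) ^ (-β)) :=
    (Real.summable_nat_rpow.2 (by linarith)).mul_left A
  have h1 := hs.hasSum.tendsto_sum_nat
  rw [Metric.tendsto_atTop] at h1
  obtain ⟨t₀, h2⟩ := h1 (1 / 4) (by norm_num)
  refine ⟨t₀, fun t₁ ht₁ T => ?_⟩
  rcases le_total T t₁ with hT | hT
  · rw [Finset.Ico_eq_empty (by omega)]
    norm_num
  · rw [Finset.sum_Ico_eq_sub _ hT]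
    have h3 := h2 t₁ ht₁
    have h4 := h2 T (ht₁.trans hT)
    rw [Real.dist_eq, abs_lt] at h3 h4
    linarith [h3.1, h3.2, h4.1, h4.2]

theorem main {p q : ℕ} (hp : 2 ≤ p) (hq : 2 ≤ q) (hpq : Nat.Coprime p q)
    {μ : Measure UnitAddCircle} [IsProbabilityMeasure μ] [NullSingletonClass μ]
    (hμp : MeasurePreserving (fun x : UnitAddCircle => p • x) μ μ)
    (H : ∀ k : ℤ, ∃ C θ : ℝ, θ < 1 ∧ SqrtCancel p q μ k C θ) :
    μ = (volume : Measure UnitAddCircle) := by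
  classical
  apply eq_volume_of_coef
  intro k hk
  by_contra hck
  obtain ⟨C₀, θ₀, -, H0⟩ := H k
  obtain ⟨l, hl, hsep⟩ := sep hp hq hpq hk hck H0
  obtain ⟨C, hC1, hC⟩ := block_step hp hq hpq
  have hC0 : 0 < C := by linarith
  obtain ⟨Z, r, hr, hZr, hZ⟩ := cover_small hp hμp hl hsep (ε := 1 / (80 * C)) (by positivity)
  obtain ⟨C', θ, hC'0, hθ0, hθ1, hstat⟩ := stat_bound H Z hr hZ
  set N : ℝ := (Z.card : ℝ) with hN
  have hN0 : 0 ≤ N := Nat.cast_nonneg _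
  have hN1 : 80 * C * N ^ 2 * r ≤ 1 := by
    rw [le_div_iff₀ (by positivity)] at hZr
    linarith
  obtain ⟨i₀, hi₀⟩ : ∃ i₀ : ℕ, 8 * C * N ^ 2 ≤ 2 ^ i₀ := by
    obtain ⟨i, hi⟩ := pow_unbounded_of_one_lt (8 * C * N ^ 2) (by norm_num : (1:ℝ) < 2)
    exact ⟨i, hi.le⟩
  have hq0 : (0:ℝ) < q := by positivity
  have hp0 : (0:ℝ) < p := by positivity
  -- the tail of the series
  obtain ⟨t₀, ht₀⟩ := tail_small (A := 8 * q * C' * (8 * p) ^ (2 - θ)) (β := 2 - θ)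
    (by linarith)
  -- eventual conditions
  have hlim1 : ∀ᶠ t : ℕ in atTop, 8 * N ^ 2 * (10 * r * 2 ^ (t / 2) + 1) ≤ (2:ℝ) ^ t / (4 * q) := by
    -- 2 ^ (t / 2) ≤ sqrt 2 ^ t
    have h1 : Tendsto (fun t : ℕ => (8 * N ^ 2 * (10 * r + 1)) * (4 * q) *
        ((2:ℝ) ^ (-(1/2 : ℝ))) ^ t) atTop (𝓝 ((8 * N ^ 2 * (10 * r + 1)) * (4 * q) * 0)) := by
      apply Tendsto.const_mul
      apply tendsto_pow_atTop_nhds_zero_of_lt_one (by positivity)
      apply Real.rpow_lt_one_of_one_lt_of_neg (by norm_num) (by norm_num)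
    rw [mul_zero] at h1
    filter_upwards [h1.eventually (gt_mem_nhds (by norm_num : (0:ℝ) < 1))] with t ht
    rw [le_div_iff₀ (by positivity)]
    have h2 : (2:ℝ) ^ (t / 2) ≤ (2:ℝ) ^ ((1/2 : ℝ) * t) := by
      rw [← Real.rpow_natCast]
      apply Real.rpow_le_rpow_of_exponent_le (by norm_num)
      have : ((t / 2 : ℕ) : ℝ) ≤ (t : ℝ) / 2 := Nat.cast_div_le
      linarith
    have h3 : (1:ℝ) ≤ (2:ℝ) ^ ((1/2 : ℝ) * t) := by
      apply Real.one_le_rpow (by norm_num) (by positivity)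
    have h4 : 8 * N ^ 2 * (10 * r * 2 ^ (t / 2) + 1) ≤
        8 * N ^ 2 * (10 * r + 1) * (2:ℝ) ^ ((1/2 : ℝ) * t) := by
      have : 10 * r * 2 ^ (t / 2) + 1 ≤ (10 * r + 1) * (2:ℝ) ^ ((1/2 : ℝ) * t) := by
        have := mul_le_mul_of_nonneg_left h2 (by positivity : 0 ≤ 10 * r)
        nlinarith
      calc 8 * N ^ 2 * (10 * r * 2 ^ (t / 2) + 1) ≤
          8 * N ^ 2 * ((10 * r + 1) * (2:ℝ) ^ ((1/2 : ℝ) * t)) := by gcongr
        _ = _ := by ring
    have h5 : (2:ℝ) ^ ((1/2 : ℝ) * t) = ((2:ℝ) ^ (-(1/2 : ℝ))) ^ t * 2 ^ t := by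
      rw [← mul_pow, ← Real.rpow_natCast (_ * 2) t, Real.rpow_mul (by norm_num)]
      congr 1
      have h6 := Real.rpow_add (by norm_num : (0:ℝ) < 2) (-(1/2 : ℝ)) 1
      rw [Real.rpow_one] at h6
      rw [← h6]
      norm_num
    calc 8 * N ^ 2 * (10 * r * 2 ^ (t / 2) + 1) * (4 * q)
        ≤ 8 * N ^ 2 * (10 * r + 1) * (2:ℝ) ^ ((1/2 : ℝ) * t) * (4 * q) := by gcongr
      _ = (8 * N ^ 2 * (10 * r + 1) * (4 * q) * ((2:ℝ) ^ (-(1/2 : ℝ))) ^ t) * 2 ^ t := by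
          rw [h5]; ring
      _ ≤ 1 * 2 ^ t := by gcongr
      _ = 2 ^ t := one_mul _
  have hlim2 : ∀ᶠ t : ℕ in atTop, 1 ≤ r * (2:ℝ) ^ (2 ^ t) := by
    obtain ⟨i, hi⟩ := pow_unbounded_of_one_lt (1 / r) (by norm_num : (1:ℝ) < 2)
    filter_upwards [eventually_ge_atTop i] with t ht
    have h1 : (2:ℝ) ^ i ≤ 2 ^ (2 ^ t) :=
      pow_le_pow_right₀ (by norm_num) (ht.trans Nat.lt_two_pow_self.le)
    rw [div_lt_iff₀ hr] at hi
    nlinarith
  rw [eventually_atTop] at hlim1 hlim2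
  obtain ⟨t₂, ht₂⟩ := hlim1
  obtain ⟨t₃, ht₃⟩ := hlim2
  set t₁ : ℕ := t₀ + t₂ + t₃ + 4 * p * (8 * i₀ + 8) + 4 * q + 8 * p with ht₁
  set s : ℕ → ℕ := fun t => t / (4 * p) with hs
  set M : ℕ → ℕ := fun t => 2 ^ t / (2 * q) with hM
  have hs8 : ∀ t, t₁ ≤ t → 8 * i₀ ≤ s t ∧ 1 ≤ s t := by
    intro t ht
    have : 8 * i₀ + 8 ≤ t / (4 * p) := by
      rw [Nat.le_div_iff_mul_le (by omega)]
      calc (8 * i₀ + 8) * (4 * p) = 4 * p * (8 * i₀ + 8) := by ring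
        _ ≤ t := by omega
    constructor
    · simp only [hs]; omega
    · simp only [hs]; omega
  have hslow : ∀ t, t₁ ≤ t → (t : ℝ) / (8 * p) ≤ s t := by
    intro t ht
    have h1 : (t : ℝ) < (4 * p) * (t / (4 * p) : ℕ) + 4 * p := by
      have := Nat.lt_mul_div_succ t (show 0 < 4 * p by omega)
      have h2 : (t : ℝ) < ((4 * p * (t / (4 * p) + 1) : ℕ) : ℝ) := by exact_mod_cast this
      push_cast at h2
      push_cast
      linarith
    have h3 : (8 * p : ℝ) ≤ t := by exact_mod_cast (by omega : 8 * p ≤ t)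
    rw [div_le_iff₀ (by positivity)]
    simp only [hs]
    nlinarith
  have hMlow : ∀ t, t₁ ≤ t → (2:ℝ) ^ t / (4 * q) ≤ M t := by
    intro t ht
    have h1 : (2:ℝ) ^ t < (2 * q) * (2 ^ t / (2 * q) : ℕ) + 2 * q := by
      have := Nat.lt_mul_div_succ (2 ^ t) (show 0 < 2 * q by omega)
      have h2 : ((2 ^ t : ℕ) : ℝ) < ((2 * q * (2 ^ t / (2 * q) + 1) : ℕ) : ℝ) := by
        exact_mod_cast this
      push_cast at h2
      push_cast
      linarith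
    have h3 : (4 * q : ℝ) ≤ 2 ^ t := by
      have : 4 * q ≤ 2 ^ t := (by omega : 4 * q ≤ t).trans Nat.lt_two_pow_self.le
      exact_mod_cast this
    rw [div_le_iff₀ (by positivity)]
    simp only [hM]
    nlinarith
  have hM1 : ∀ t, t₁ ≤ t → 1 ≤ M t := by
    intro t ht
    simp only [hM]
    rw [Nat.le_div_iff_mul_le (by omega)]
    exact (by omega : 1 * (2 * q) ≤ t).trans Nat.lt_two_pow_self.le
  -- the bad sets
  have hBex : ∀ t : ℕ, ∃ B : Set UnitAddCircle, MeasurableSet B ∧ (t₁ ≤ t →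
      μ.real B ≤ C' * (s t : ℝ) ^ θ / (s t * M t) ∧
      ∀ x, x ∉ B → 8 * (outCount p q Z (2 * r) (Finset.range (s t) ×ˢ Finset.range (M t)) x : ℝ)
        ≤ s t * M t) := by
    intro t
    by_cases ht : t₁ ≤ t
    · obtain ⟨B, hB1, hB2, hB3⟩ := hstat (s t) (Finset.range (s t) ×ˢ Finset.range (M t))
        (hs8 t ht).2 (by
          rw [Finset.nonempty_product, Finset.nonempty_range_iff, Finset.nonempty_range_iff]
          have := (hs8 t ht).2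
          have := hM1 t ht
          omega) (fun v hv => Finset.mem_range.1 (Finset.mem_product.1 hv).1)
      have hcard : (((Finset.range (s t) ×ˢ Finset.range (M t)).card : ℕ) : ℝ) = s t * M t := by
        rw [Finset.card_product, Finset.card_range, Finset.card_range]
        push_cast; ring
      rw [hcard] at hB2 hB3
      exact ⟨B, hB1, fun _ => ⟨hB2, hB3⟩⟩
    · exact ⟨∅, MeasurableSet.empty, fun h => absurd h ht⟩
  choose B hBm hB using hBex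
  refine chain_atoms hp hμp t₁ s (fun t ht => (hs8 t ht).2)
    (fun t => Nat.div_le_self t (4 * p)) B hBm ?_ ?_
  · intro T
    refine le_trans (Finset.sum_le_sum ?_) (ht₀ t₁ (by omega) T)
    intro t ht
    rw [Finset.mem_Ico] at ht
    have ht1 := ht.1
    have hs1 : (1:ℝ) ≤ s t := by exact_mod_cast (hs8 t ht1).2
    have hs0 : (0:ℝ) < s t := by linarith
    have hm1 : (1:ℝ) ≤ M t := by exact_mod_cast hM1 t ht1
    have hm0 : (0:ℝ) < M t := by linarith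
    have htpos : (0:ℝ) < t := by
      have : 0 < t := by omega
      exact_mod_cast this
    have hst : (s t : ℝ) ≤ 2 ^ t := by
      have : s t ≤ 2 ^ t := (Nat.div_le_self t (4 * p)).trans Nat.lt_two_pow_self.le
      exact_mod_cast this
    have h1 : (2:ℝ) ^ t / s t + 1 ≤ 2 * 2 ^ t / s t := by
      have : 1 ≤ (2:ℝ) ^ t / s t := (one_le_div hs0).2 hst
      have e : 2 * (2:ℝ) ^ t / s t = 2 ^ t / s t + 2 ^ t / s t := by ring
      linarith
    have h2 := (hB t ht1).1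
    have h3 : (1:ℝ) / M t ≤ 4 * q / 2 ^ t := by
      rw [div_le_div_iff₀ hm0 (by positivity)]
      have := hMlow t ht1
      rw [div_le_iff₀ (by positivity)] at this
      linarith
    have h4 : (s t : ℝ) ^ (θ - 2) ≤ (8 * p) ^ (2 - θ) * (t : ℝ) ^ (-(2 - θ)) := by
      have h5 : (s t : ℝ) ^ (θ - 2) ≤ ((t : ℝ) / (8 * p)) ^ (θ - 2) := by
        apply Real.rpow_le_rpow_of_nonpos (by positivity) (hslow t ht1) (by linarith)
      refine h5.trans (le_of_eq ?_)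
      rw [Real.div_rpow htpos.le (by positivity), div_eq_mul_inv, ← Real.rpow_neg (by positivity),
        mul_comm]
      congr 2
      · ring
      · ring
    have h6 : (s t : ℝ) ^ θ = (s t : ℝ) ^ (θ - 2) * (s t) ^ 2 := by
      rw [← Real.rpow_natCast (s t : ℝ) 2, ← Real.rpow_add hs0]
      congr 1
      push_cast; ring
    calc ((2:ℝ) ^ t / s t + 1) * μ.real (B t)
        ≤ (2 * 2 ^ t / s t) * (C' * (s t : ℝ) ^ θ / (s t * M t)) := by gcongr
      _ = 2 * C' * 2 ^ t * (s t : ℝ) ^ (θ - 2) * (1 / M t) := by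
          rw [h6]; field_simp
      _ ≤ 2 * C' * 2 ^ t * ((8 * p) ^ (2 - θ) * (t : ℝ) ^ (-(2 - θ))) * (4 * q / 2 ^ t) := by
          gcongr
      _ = 8 * q * C' * (8 * p) ^ (2 - θ) * (t : ℝ) ^ (-(2 - θ)) := by
          field_simp; ring
  · intro t ht K hK X hX Y hY hXY
    refine hC Z r i₀ (s t) (M t) K hr hN1 hi₀ (hs8 t ht).1 (hs8 t ht).2 (hM1 t ht) ?_ ?_ X Y
      ((hB t ht).2 X hX) ((hB t ht).2 Y hY) hXY
    · have h1 := ht₂ t (by omega)
      have h2 : (p : ℝ) ^ (2 * s t) ≤ 2 ^ (t / 2) := by exact_mod_cast pow_le_of_div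
      calc 8 * N ^ 2 * (10 * r * (p : ℝ) ^ (2 * s t) + 1) ≤
          8 * N ^ 2 * (10 * r * 2 ^ (t / 2) + 1) := by gcongr
        _ ≤ (2:ℝ) ^ t / (4 * q) := h1
        _ ≤ (M t : ℝ) := hMlow t ht
    · obtain ⟨u, rfl⟩ : ∃ u, t = u + 1 := ⟨t - 1, by omega⟩
      have h1 : (q : ℝ) ^ (M (u + 1)) ≤ 2 ^ (2 ^ u) := by exact_mod_cast pow_le_of_div'
      have h2 : (2:ℝ) ^ (2 ^ (u + 1)) ≤ (p : ℝ) ^ K := by
        calc (2:ℝ) ^ (2 ^ (u + 1)) ≤ (p : ℝ) ^ (2 ^ (u + 1)) := by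
              gcongr; exact_mod_cast hp
          _ ≤ (p : ℝ) ^ K := pow_le_pow_right₀ (by exact_mod_cast (by omega : 1 ≤ p)) hK
      have h3 := ht₃ u (by omega)
      calc (q : ℝ) ^ (M (u + 1)) ≤ 2 ^ (2 ^ u) := h1
        _ ≤ (r * 2 ^ (2 ^ u)) * 2 ^ (2 ^ u) := by
            have : (0:ℝ) ≤ 2 ^ (2 ^ u) := by positivity
            nlinarith
        _ = r * 2 ^ (2 ^ (u + 1)) := by
            rw [pow_succ 2 u, pow_mul]; ring
        _ ≤ r * (p : ℝ) ^ K := by gcongr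

end Pool.Agent.H.MP_96e181_an.Blk
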